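import Pool.Agent.H49.FD.Dens

/-!
# Free pairs, and the closure of the set of the pairs which are not free
-/

set_option autoImplicit false

namespace Pool.Agent.H49.FD

open Finset Real Pool.Agent.H54.Free

/-- Ping-pong in the `p`-adic integers. -/
lemma padic_free {p : ℕ} [Fact p.Prime] {a b : ℚ} (ha0 : a ≠ 0) (hb0 : b ≠ 0)
    (ha : padicNorm p a < 1) (hb : padicNorm p b < 1) {w w' : List Bool}
    (h : ∀ s, act (fM a) (gM b) w s = act (fM a) (gM b) w' s) : w = w' := by
  have h1b : padicNorm p (1 - b) ≤ 1 := by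
    have h3 := padicNorm.sub (p := p) (q := 1) (r := b)
    refine h3.trans (max_le ?_ hb.le)
    rw [padicNorm.one]
  have hint : ∀ l : List Bool, padicNorm p (act (fM a) (gM b) l 0) ≤ 1 := fun l =>
    act_int (c := 0) (d := 1 - b) ha.le hb.le (by rw [padicNorm.zero]; norm_num) h1b l
      (by rw [padicNorm.zero]; norm_num)
  -- slopes
  have hslope : ∀ (c : Bool) (l : List Bool),
      padicNorm p (a ^ (c :: l).count false * b ^ (c :: l).count true) < 1 := by
    intro c l
    have k1 : ∀ n, padicNorm p (a ^ n) ≤ 1 := norm_pow_le_one ha.le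
    have k2 : ∀ n, padicNorm p (b ^ n) ≤ 1 := norm_pow_le_one hb.le
    rw [padicNorm.mul]
    cases c
    · rw [List.count_cons_self, pow_succ, padicNorm.mul]
      calc padicNorm p (a ^ l.count false) * padicNorm p a *
            padicNorm p (b ^ (false :: l).count true)
          ≤ 1 * padicNorm p a * 1 :=
            mul_le_mul (mul_le_mul_of_nonneg_right (k1 _) (padicNorm.nonneg _)) (k2 _)
              (padicNorm.nonneg _) (mul_nonneg zero_le_one (padicNorm.nonneg _))
        _ < 1 := by linarith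
    · rw [List.count_cons_self, pow_succ, padicNorm.mul]
      calc padicNorm p (a ^ (true :: l).count false) *
            (padicNorm p (b ^ l.count true) * padicNorm p b)
          ≤ 1 * (1 * padicNorm p b) :=
            mul_le_mul (k1 _) (mul_le_mul_of_nonneg_right (k2 _) (padicNorm.nonneg _))
              (mul_nonneg (padicNorm.nonneg _) (padicNorm.nonneg _)) zero_le_one
        _ < 1 := by linarith
  have hnil : ∀ (c : Bool) (l : List Bool),
      ¬ ∀ s, act (fM a) (gM b) [] s = act (fM a) (gM b) (c :: l) s := by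
    intro c l h0
    have h1 := act_slope a b (c :: l)
    rw [← h0 1, ← h0 0] at h1
    have h2 := hslope c l
    rw [← h1] at h2
    simp [act] at h2
  -- different first letters
  have hlead : ∀ l l' : List Bool,
      ¬ ∀ s, act (fM a) (gM b) (false :: l) s = act (fM a) (gM b) (true :: l') s := by
    intro l l' h0
    have h1 := h0 0
    simp only [act, Bool.false_eq_true, if_false, if_true, add_zero] at h1
    have h2 : (1 : ℚ) = a * act (fM a) (gM b) l 0 + b * (1 - act (fM a) (gM b) l' 0) := by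
      have e : a * act (fM a) (gM b) l 0 = b * act (fM a) (gM b) l' 0 + (1 - b) := h1
      linear_combination -e
    have h3 : padicNorm p (a * act (fM a) (gM b) l 0 + b * (1 - act (fM a) (gM b) l' 0)) < 1 := by
      refine padicNorm.nonarchimedean.trans_lt (max_lt ?_ ?_)
      · rw [padicNorm.mul]
        calc padicNorm p a * padicNorm p (act (fM a) (gM b) l 0) ≤ padicNorm p a * 1 := by
              gcongr
              · exact padicNorm.nonneg _
              · exact hint l
          _ < 1 := by linarith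
      · rw [padicNorm.mul]
        have h4 : padicNorm p (1 - act (fM a) (gM b) l' 0) ≤ 1 := by
          refine (padicNorm.sub (p := p)).trans (max_le ?_ (hint l'))
          rw [padicNorm.one]
        calc padicNorm p b * padicNorm p (1 - act (fM a) (gM b) l' 0) ≤ padicNorm p b * 1 := by
              gcongr
              exact padicNorm.nonneg _
          _ < 1 := by linarith
    rw [← h2, padicNorm.one] at h3
    exact lt_irrefl _ h3
  induction w generalizing w' with
  | nil =>
    cases w' with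
    | nil => rfl
    | cons c l => exact absurd h (hnil c l)
  | cons c l ih =>
    cases w' with
    | nil => exact absurd (fun s => (h s).symm) (hnil c l)
    | cons c' l' =>
      cases c <;> cases c'
      · rw [ih fun s => ?_]
        have := h s
        simp only [act, Bool.false_eq_true, if_false, add_zero] at this
        exact mul_left_cancel₀ ha0 this
      · exact absurd h (hlead l l')
      · exact absurd (fun s => (h s).symm) (hlead l' l)
      · rw [ih fun s => ?_]
        have := h s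
        simp only [act, if_true] at this
        exact mul_left_cancel₀ hb0 (add_right_cancel this)

lemma always_of_padic {p : ℕ} [Fact p.Prime] {a b : ℚ} (ha0 : a ≠ 0) (hb0 : b ≠ 0)
    (ha : padicNorm p a < 1) (hb : padicNorm p b < 1) : AlwaysFree a b := by
  intro x₁ y₁ z₁ x₂ y₂ z₂ hx₁ hz₁ hx₂ hz₂ e₁ e₂ hnc w w' _ _ hw
  have hz1 : (z₁ : ℚ) ≠ 0 := by exact_mod_cast hz₁.ne'
  have hz2 : (z₂ : ℚ) ≠ 0 := by exact_mod_cast hz₂.ne'
  have hnc' : x₁ * y₂ + y₁ * z₂ ≠ x₂ * y₁ + y₂ * z₁ := by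
    intro h0
    apply hnc
    rw [Matrix.mul_fin_two, Matrix.mul_fin_two]
    simp only [mul_zero, zero_mul, add_zero, zero_add]
    rw [h0, mul_comm x₁ x₂, mul_comm z₁ z₂]
  have n1 : x₁ ≠ z₁ := by
    rintro rfl
    rw [div_self hz1] at e₁
    rw [← e₁, padicNorm.one] at ha
    exact lt_irrefl _ ha
  have n2 : x₂ ≠ z₂ := by
    rintro rfl
    rw [div_self hz2] at e₂
    rw [← e₂, padicNorm.one] at hb
    exact lt_irrefl _ hb
  have h1 := act_normal hz₁ hz₂ n1 n2 hnc' (act_eq_of_prod_eq hz₁ hz₂ hw)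
  rw [e₁, e₂] at h1
  exact padic_free ha0 hb0 ha hb h1

/-- Outside of the critical region every noncommuting pair is free. -/
lemma always_outside {a b : ℚ} (ha : 0 < a) (hb : 0 < b)
    (h : a + b ≤ 1 ∨ 1 / a + 1 / b ≤ 1) : AlwaysFree a b := by
  intro x₁ y₁ z₁ x₂ y₂ z₂ hx₁ hz₁ hx₂ hz₂ e₁ e₂ hnc
  by_contra hnf
  have hz1 : (z₁ : ℚ) ≠ 0 := by exact_mod_cast hz₁.ne'
  have hz2 : (z₂ : ℚ) ≠ 0 := by exact_mod_cast hz₂.ne'
  have hx1 : (x₁ : ℚ) ≠ 0 := by exact_mod_cast hx₁.ne'
  have hx2 : (x₂ : ℚ) ≠ 0 := by exact_mod_cast hx₂.ne'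
  have key : ∀ t : ℚ, 0 < t → t < 1 → 0 < t.num.natAbs ∧ t.num.natAbs < t.den ∧
      Nat.Coprime t.num.natAbs t.den ∧ ((t.num.natAbs : ℕ) : ℚ) / t.den = t := by
    intro t h0 h1
    have hn : 0 < t.num := Rat.num_pos.2 h0
    have e : ((t.num.natAbs : ℕ) : ℚ) = t.num := by
      rw [Nat.cast_natAbs, abs_of_pos hn]
    have e2 : ((t.num.natAbs : ℕ) : ℚ) / t.den = t := by
      rw [e]; exact Rat.num_div_den t
    refine ⟨by omega, ?_, t.reduced, e2⟩
    have hd : (0 : ℚ) < t.den := by exact_mod_cast t.den_pos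
    rw [← e2, div_lt_one hd] at h1
    exact_mod_cast h1
  rcases h with h | h
  · have a1 : a < 1 := by linarith
    have b1 : b < 1 := by linarith
    obtain ⟨p1, q1, c1, r1⟩ := key a ha a1
    obtain ⟨p2, q2, c2, r2⟩ := key b hb b1
    have d1 : (a.den : ℚ) ≠ 0 := by exact_mod_cast a.den_pos.ne'
    have d2 : (b.den : ℚ) ≠ 0 := by exact_mod_cast b.den_pos.ne'
    obtain ⟨M, N, hM, hN, h3, -⟩ := obstruction hx₁ hz₁ hx₂ hz₂ p1 q1 c1 p2 q2 c2
      (Or.inl ⟨by
        have t1 := r1.trans e₁.symm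
        rw [div_eq_div_iff d1 hz1] at t1
        have : (x₁ : ℚ) * a.den = a.num.natAbs * z₁ := t1.symm
        exact_mod_cast this, by
        have t1 := r2.trans e₂.symm
        rw [div_eq_div_iff d2 hz2] at t1
        have : (x₂ : ℚ) * b.den = b.num.natAbs * z₂ := t1.symm
        exact_mod_cast this⟩) hnc hnf
    rw [r1, r2] at h3
    have h4 : a ^ M ≤ a := pow_le_of_le_one ha.le a1.le (by omega)
    have h5 : b ^ N ≤ b := pow_le_of_le_one hb.le b1.le (by omega)
    linarith
  · have ha' : 0 < a⁻¹ := inv_pos.2 ha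
    have hb' : 0 < b⁻¹ := inv_pos.2 hb
    rw [one_div, one_div] at h
    have a1 : a⁻¹ < 1 := by linarith
    have b1 : b⁻¹ < 1 := by linarith
    obtain ⟨p1, q1, c1, r1⟩ := key a⁻¹ ha' a1
    obtain ⟨p2, q2, c2, r2⟩ := key b⁻¹ hb' b1
    have d1 : ((a⁻¹).den : ℚ) ≠ 0 := by exact_mod_cast (a⁻¹).den_pos.ne'
    have d2 : ((b⁻¹).den : ℚ) ≠ 0 := by exact_mod_cast (b⁻¹).den_pos.ne'
    have s1 : (z₁ : ℚ) / x₁ = a⁻¹ := by rw [← e₁, inv_div]
    have s2 : (z₂ : ℚ) / x₂ = b⁻¹ := by rw [← e₂, inv_div]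
    obtain ⟨M, N, hM, hN, h3, -⟩ := obstruction hx₁ hz₁ hx₂ hz₂ p1 q1 c1 p2 q2 c2
      (Or.inr ⟨by
        have t1 := r1.trans s1.symm
        rw [div_eq_div_iff d1 hx1] at t1
        have : (z₁ : ℚ) * (a⁻¹).den = (a⁻¹).num.natAbs * x₁ := t1.symm
        exact_mod_cast this, by
        have t1 := r2.trans s2.symm
        rw [div_eq_div_iff d2 hx2] at t1
        have : (z₂ : ℚ) * (b⁻¹).den = (b⁻¹).num.natAbs * x₂ := t1.symm
        exact_mod_cast this⟩) hnc hnf
    rw [r1, r2] at h3
    have h4 : a⁻¹ ^ M ≤ a⁻¹ := pow_le_of_le_one ha'.le a1.le (by omega)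
    have h5 : b⁻¹ ^ N ≤ b⁻¹ := pow_le_of_le_one hb'.le b1.le (by omega)
    linarith

/-- The two properties exclude each other. -/
lemma not_both {a b : ℚ} (ha : 0 < a) (hb : 0 < b) (ha1 : a ≠ 1) (h1 : AlwaysFree a b)
    (h2 : NeverFree a b) : False := by
  have na : 0 < a.num.natAbs := Int.natAbs_pos.2 (Rat.num_pos.2 ha).ne'
  have nb : 0 < b.num.natAbs := Int.natAbs_pos.2 (Rat.num_pos.2 hb).ne'
  have ea : ((a.num.natAbs : ℕ) : ℚ) / a.den = a := by
    rw [Nat.cast_natAbs, abs_of_pos (Rat.num_pos.2 ha)]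
    exact Rat.num_div_den a
  have eb : ((b.num.natAbs : ℕ) : ℚ) / b.den = b := by
    rw [Nat.cast_natAbs, abs_of_pos (Rat.num_pos.2 hb)]
    exact Rat.num_div_den b
  refine h2 _ 0 _ _ 1 _ na a.den_pos nb b.den_pos ea eb
    (h1 _ 0 _ _ 1 _ na a.den_pos nb b.den_pos ea eb fun h => ?_)
  have h3 := congrFun (congrFun h 0) 1
  simp [Matrix.mul_apply, Fin.sum_univ_two] at h3
  apply ha1
  have hd : (a.den : ℚ) ≠ 0 := by exact_mod_cast a.den_pos.ne'
  rw [← ea, div_eq_one_iff_eq hd]
  exact_mod_cast h3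

/-- Free pairs are dense. -/
theorem dense_always {a₀ b₀ ε : ℝ} (ha : 0 < a₀) (hb : 0 < b₀) (hε : 0 < ε) {m : ℕ} [NeZero m]
    (U V : (ZMod m)ˣ) :
    ∃ a b : ℚ, 0 < a ∧ 0 < b ∧ |(a : ℝ) - a₀| < ε ∧ |(b : ℝ) - b₀| < ε ∧
      Res m a U ∧ Res m b V ∧ AlwaysFree a b := by
  have hm : 0 < m := Nat.pos_of_ne_zero (NeZero.ne m)
  obtain ⟨p, hpm, hp⟩ := Nat.exists_infinite_primes (m + 1)
  have hcop : Nat.Coprime p m := (Nat.Prime.coprime_iff_not_dvd hp).2
    fun h => by have := Nat.le_of_dvd hm h; omega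
  have : Fact p.Prime := ⟨hp⟩
  have hp0 : (0 : ℝ) < p := by exact_mod_cast hp.pos
  have hm0 : (0 : ℝ) < m := by exact_mod_cast hm
  have key : ∀ (t : ℝ) (W : (ZMod m)ˣ), 0 < t →
      ∃ a : ℚ, 0 < a ∧ |(a : ℝ) - t| < ε ∧ padicNorm p a < 1 ∧ Res m a W := by
    intro t W ht
    obtain ⟨k, hk⟩ := exists_nat_gt (1 / ε)
    set N := 1 + m * p * k with hN
    have hN0 : 0 < N := by omega
    have hN0' : (0 : ℝ) < N := by exact_mod_cast hN0
    have hNk : (p : ℝ) * m < ε * N := by
      rw [div_lt_iff₀ hε] at hk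
      rw [hN]; push_cast
      have h1 : (p : ℝ) * m * 1 < p * m * (k * ε) := by gcongr
      nlinarith
    set ϖ : (ZMod m)ˣ := (ZMod.unitOfCoprime p hcop)⁻¹ with hϖ
    obtain ⟨M, q1, q2, q3⟩ := exists_res ((W : ZMod m) * (ϖ : ZMod m)) (t * N / p)
      (by positivity)
    have hM0 : 0 < M := by
      have : (0 : ℝ) < M := lt_trans (by positivity) q1
      exact_mod_cast this
    have hNq : (N : ℚ) ≠ 0 := by exact_mod_cast hN0.ne'
    refine ⟨((p * M : ℕ) : ℚ) / N, ?_, ?_, ?_, ?_⟩
    · have h1 : (0 : ℚ) < ((p * M : ℕ) : ℚ) := by exact_mod_cast Nat.mul_pos hp.pos hM0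
      have h2 : (0 : ℚ) < N := by exact_mod_cast hN0
      positivity
    · push_cast
      have e : (p : ℝ) * M / N - t = (p * (M - t * N / p)) / N := by field_simp
      rw [e, abs_div, abs_of_pos hN0', div_lt_iff₀ hN0', abs_mul, abs_of_pos hp0]
      have h1 : |(M : ℝ) - t * N / p| ≤ m := by
        rw [abs_le]
        constructor <;> linarith
      exact (mul_le_mul_of_nonneg_left h1 hp0.le).trans_lt hNk
    · rw [padicNorm.div]
      have h1 : padicNorm p (N : ℚ) = 1 := by
        refine padicNorm_nat_eq_one fun h => ?_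
        have h2 : p ∣ m * p * k := Dvd.dvd.mul_right (dvd_mul_left _ _) _
        have h3 : p ∣ 1 := (Nat.dvd_add_left h2).1 h
        exact hp.one_lt.ne' (Nat.dvd_one.1 h3)
      rw [h1, div_one, padicNorm.nat_lt_one_iff]
      exact dvd_mul_right _ _
    · refine Res.of_frac (P := ((p * M : ℕ) : ℤ)) (Q := (N : ℤ)) ?_ ?_ ?_ ?_
      · exact_mod_cast hN0.ne'
      · push_cast
        rw [hN]
        push_cast
        simp
      · push_cast
        rw [q3, hN]
        push_cast
        have h1 : (p : ZMod m) * (ϖ : ZMod m) = 1 := by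
          have h2 := (ZMod.unitOfCoprime p hcop).mul_inv
          rwa [ZMod.coe_unitOfCoprime] at h2
        simp only [CharP.cast_eq_zero, zero_mul, add_zero, mul_one]
        calc (p : ZMod m) * ((W : ZMod m) * (ϖ : ZMod m)) = W * (p * (ϖ : ZMod m)) := by ring
          _ = W := by rw [h1, mul_one]
      · push_cast
        rfl
  obtain ⟨a, a0, a1, a2, a3⟩ := key a₀ U ha
  obtain ⟨b, b0, b1, b2, b3⟩ := key b₀ V hb
  exact ⟨a, b, a0, b0, a1, b1, a3, b3, always_of_padic a0.ne' b0.ne' a2 b2⟩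

lemma ne_one_of_indep {a b : ℚ} (h : MulIndep a b) : a ≠ 1 := by
  rintro rfl
  have := (h 1 0 (by simp)).1
  norm_num at this

/-- **The closure of the set of the pairs which are not free.** -/
theorem closure_iff {a₀ b₀ : ℝ} (ha : 0 < a₀) (hb : 0 < b₀) {m : ℕ} [NeZero m]
    (U V : (ZMod m)ˣ) :
    (∀ ε : ℝ, 0 < ε → ∃ a b : ℚ, 0 < a ∧ 0 < b ∧ |(a : ℝ) - a₀| < ε ∧ |(b : ℝ) - b₀| < ε ∧
      MulIndep a b ∧ Res m a U ∧ Res m b V ∧ NeverFree a b) ↔
      1 ≤ a₀ + b₀ ∧ 1 ≤ 1 / a₀ + 1 / b₀ := by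
  constructor
  · intro h
    constructor
    · by_contra h1
      push Not at h1
      obtain ⟨a, b, a0, b0, a1, b1, hi, -, -, hn⟩ := h ((1 - (a₀ + b₀)) / 2) (by linarith)
      rw [abs_lt] at a1 b1
      have h2 : (a : ℝ) + b ≤ 1 := by linarith [a1.2, b1.2]
      exact not_both a0 b0 (ne_one_of_indep hi)
        (always_outside a0 b0 (Or.inl (by exact_mod_cast h2))) hn
    · by_contra h1
      push Not at h1
      have hc : ContinuousAt (fun x : ℝ × ℝ => 1 / x.1 + 1 / x.2) (a₀, b₀) :=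
        ContinuousAt.add (continuousAt_const.div continuousAt_fst ha.ne')
          (continuousAt_const.div continuousAt_snd hb.ne')
      obtain ⟨δ, hδ, hδ2⟩ := Metric.continuousAt_iff.1 hc (1 - (1 / a₀ + 1 / b₀)) (by linarith)
      obtain ⟨a, b, a0, b0, a1, b1, hi, -, -, hn⟩ := h δ hδ
      have h2 := @hδ2 ((a : ℝ), (b : ℝ)) (by
        rw [Prod.dist_eq, Real.dist_eq, Real.dist_eq]
        exact max_lt a1 b1)
      rw [Real.dist_eq, abs_lt] at h2
      have h3 : 1 / (a : ℝ) + 1 / b ≤ 1 := by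
        have := h2.2
        simp only at this
        linarith
      exact not_both a0 b0 (ne_one_of_indep hi)
        (always_outside a0 b0 (Or.inr (by exact_mod_cast h3))) hn
  · rintro ⟨h1, h2⟩ ε hε
    rcases h1.lt_or_eq with h1' | h1'
    · rcases h2.lt_or_eq with h2' | h2'
      · exact dense_never ha hb h1' h2' hε U V
      · -- on the curve `1 / a₀ + 1 / b₀ = 1`
        have hb1 : 0 < 1 / b₀ := by positivity
        have ha1 : 1 < a₀ := by
          have : 1 / a₀ < 1 := by linarith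
          rwa [div_lt_one ha] at this
        set δ := min (ε / 2) ((a₀ - 1) / 2) with hδ
        have hδ0 : 0 < δ := lt_min (by positivity) (by linarith)
        have hδ1 : δ ≤ ε / 2 := min_le_left _ _
        have hδ2 : δ ≤ (a₀ - 1) / 2 := min_le_right _ _
        have ha2 : 0 < a₀ - δ := by linarith
        obtain ⟨a, b, a0, b0, a1, b1, hi, ru, rv, hn⟩ := dense_never (a₀ := a₀ - δ) (b₀ := b₀) ha2 hb
          (by linarith) (by
            have : 1 / a₀ < 1 / (a₀ - δ) := one_div_lt_one_div_of_lt ha2 (by linarith)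
            linarith) (show 0 < ε / 2 by positivity) U V
        refine ⟨a, b, a0, b0, ?_, b1.trans (by linarith), hi, ru, rv, hn⟩
        rw [abs_lt] at a1 ⊢
        constructor <;> linarith [a1.1, a1.2]
    · -- on the line `a₀ + b₀ = 1`
      have ha1 : a₀ < 1 := by linarith
      have hb1 : b₀ < 1 := by linarith
      set δ := min (ε / 2) ((1 - a₀) / 2) with hδ
      have hδ0 : 0 < δ := lt_min (by positivity) (by linarith)
      have hδ1 : δ ≤ ε / 2 := min_le_left _ _
      have hδ2 : δ ≤ (1 - a₀) / 2 := min_le_right _ _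
      have ha2 : 0 < a₀ + δ := by linarith
      obtain ⟨a, b, a0, b0, a1, b1, hi, ru, rv, hn⟩ := dense_never (a₀ := a₀ + δ) (b₀ := b₀) ha2 hb
        (by linarith) (by
          have h3 : 1 < 1 / b₀ := by rw [one_lt_div hb]; exact hb1
          have h4 : 0 < 1 / (a₀ + δ) := by positivity
          linarith) (show 0 < ε / 2 by positivity) U V
      refine ⟨a, b, a0, b0, ?_, b1.trans (by linarith), hi, ru, rv, hn⟩
      rw [abs_lt] at a1 ⊢
      constructor <;> linarith [a1.1, a1.2]

end Pool.Agent.H49.FD
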