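import Mathlib

/-!
# Residues of rational numbers
-/

set_option autoImplicit false

namespace Pool.Agent.H49.FD

/-- The rational `t` has the residue `u` modulo `m` (its denominator is then prime to `m`). -/
def Res (m : ℕ) (t : ℚ) (u : (ZMod m)ˣ) : Prop := (t.num : ZMod m) = u * (t.den : ZMod m)

variable {m : ℕ} {s t : ℚ} {u v : (ZMod m)ˣ}

lemma Res.den_unit (h : Res m t u) : IsUnit (t.den : ZMod m) := by
  have h1 : IsCoprime t.num (t.den : ℤ) := by
    rw [Int.isCoprime_iff_gcd_eq_one]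
    exact t.reduced
  obtain ⟨x, y, hxy⟩ := h1
  have h2 : ((x : ZMod m) * u + y) * (t.den : ZMod m) = 1 := by
    have h3 := congrArg (fun z : ℤ => (z : ZMod m)) hxy
    simp only [Int.cast_add, Int.cast_mul, Int.cast_one, Int.cast_natCast] at h3
    rw [h] at h3
    rw [← h3]
    ring
  exact IsUnit.of_mul_eq_one_right _ h2

/-- criterion for a fraction which need not be reduced -/
lemma Res.of_frac {P Q : ℤ} (hQ : Q ≠ 0) (hQu : IsUnit (Q : ZMod m))
    (h : (P : ZMod m) = u * (Q : ZMod m)) (ht : t = (P : ℚ) / Q) : Res m t u := by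
  have hQ' : (Q : ℚ) ≠ 0 := by exact_mod_cast hQ
  have hd : (t.den : ℚ) ≠ 0 := by exact_mod_cast t.den_pos.ne'
  have h1 : (t.num : ℚ) * Q = P * t.den := by
    have h2 : (t.num : ℚ) / t.den = P / Q := by rw [Rat.num_div_den, ht]
    rw [div_eq_div_iff hd hQ'] at h2
    exact h2
  have h2 : t.num * Q = P * t.den := by exact_mod_cast h1
  have h3 := congrArg (fun z : ℤ => (z : ZMod m)) h2
  simp only [Int.cast_mul, Int.cast_natCast] at h3
  rw [h] at h3
  unfold Res
  refine hQu.mul_right_cancel ?_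
  rw [h3]
  ring

lemma Res.mul (hs : Res m s u) (ht : Res m t v) : Res m (s * t) (u * v) := by
  have hds := hs.den_unit
  have hdt := ht.den_unit
  refine Res.of_frac (P := s.num * t.num) (Q := s.den * t.den) ?_ ?_ ?_ ?_
  · exact mul_ne_zero (by exact_mod_cast s.den_pos.ne') (by exact_mod_cast t.den_pos.ne')
  · push_cast
    exact hds.mul hdt
  · push_cast
    rw [hs, ht]
    ring
  · push_cast
    rw [← Rat.num_div_den s, ← Rat.num_div_den t]
    simp only [Rat.num_div_den]
    rw [mul_div_mul_comm, Rat.num_div_den, Rat.num_div_den]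

lemma Res.one : Res m 1 1 := by
  unfold Res
  simp

lemma Res.inv (ht : Res m t u) (h0 : t ≠ 0) : Res m t⁻¹ u⁻¹ := by
  have hd := ht.den_unit
  have hn : IsUnit (t.num : ZMod m) := by rw [ht]; exact u.isUnit.mul hd
  refine Res.of_frac (P := t.den) (Q := t.num) ?_ hn ?_ ?_
  · exact Rat.num_ne_zero.2 h0
  · rw [ht]
    push_cast
    rw [← mul_assoc, Units.inv_mul, one_mul]
  · conv_lhs => rw [← Rat.num_div_den t]
    rw [inv_div]
    push_cast
    rfl

lemma Res.pow (ht : Res m t u) (k : ℕ) : Res m (t ^ k) (u ^ k) := by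
  induction k with
  | zero => simpa using Res.one
  | succ k ih =>
    rw [pow_succ, pow_succ]
    exact ih.mul ht

lemma Res.zpow (ht : Res m t u) (h0 : t ≠ 0) (k : ℤ) : Res m (t ^ k) (u ^ k) := by
  cases k with
  | ofNat k =>
    simp only [Int.ofNat_eq_natCast, zpow_natCast]
    exact ht.pow k
  | negSucc k =>
    rw [zpow_negSucc, zpow_negSucc]
    exact (ht.pow (k + 1)).inv (pow_ne_zero _ h0)

/-- translation to a divisibility -/
lemma Res.dvd {w : ℤ} (hw : (w : ZMod m) = u) (ht : Res m t u) : (m : ℤ) ∣ t.num - w * t.den := by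
  rw [← ZMod.intCast_zmod_eq_zero_iff_dvd]
  push_cast
  rw [ht, hw]
  ring

/-- a number of given residue -/
lemma exists_res [NeZero m] (w : ZMod m) (x : ℝ) (hx : 0 ≤ x) :
    ∃ r : ℕ, x < r ∧ (r : ℝ) ≤ x + m ∧ (r : ZMod m) = w := by
  set k := ⌊x⌋₊ + 1 with hk
  have h1 : (⌊x⌋₊ : ℝ) ≤ x := Nat.floor_le hx
  have h2 : x < ⌊x⌋₊ + 1 := Nat.lt_floor_add_one x
  have h3 : (w - (k : ZMod m)).val < m := ZMod.val_lt _
  have h4 : ((w - (k : ZMod m)).val : ℝ) ≤ m - 1 := by
    have : (w - (k : ZMod m)).val + 1 ≤ m := h3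
    have : (((w - (k : ZMod m)).val + 1 : ℕ) : ℝ) ≤ m := by exact_mod_cast this
    push_cast at this
    linarith
  refine ⟨k + (w - (k : ZMod m)).val, ?_, ?_, ?_⟩
  · rw [hk]; push_cast
    have : (0 : ℝ) ≤ ((w - ((⌊x⌋₊ + 1 : ℕ) : ZMod m)).val : ℝ) := Nat.cast_nonneg _
    push_cast at this
    linarith
  · push_cast
    have : (k : ℝ) = ⌊x⌋₊ + 1 := by rw [hk]; push_cast; rfl
    linarith
  · push_cast
    rw [ZMod.natCast_zmod_val]
    ring

end Pool.Agent.H49.FD
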