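import Mathlib

/-!
# Entropy bound for binomial coefficients and the critical region
-/

set_option autoImplicit false

namespace Pool.Agent.H49.FD

open Finset Real

/-- the terms of `(i + j) ^ (i + j)` -/
def Tm (i j m : ℕ) : ℕ := (i + j).choose m * (i ^ m * j ^ (i + j - m))

lemma Tm_step (i j m : ℕ) (hm : m + 1 ≤ i + j) :
    Tm i j (m + 1) * ((m + 1) * j) = Tm i j m * ((i + j - m) * i) := by
  unfold Tm
  have h1 := Nat.choose_succ_right_eq (i + j) m
  have h2 : j ^ (i + j - m) = j ^ (i + j - (m + 1)) * j := by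
    rw [← pow_succ]
    congr 1
    omega
  rw [h2, pow_succ]
  calc (i + j).choose (m + 1) * (i ^ m * i * j ^ (i + j - (m + 1))) * ((m + 1) * j)
      = ((i + j).choose (m + 1) * (m + 1)) * (i ^ m * i * j ^ (i + j - (m + 1)) * j) := by ring
    _ = ((i + j).choose m * (i + j - m)) * (i ^ m * i * j ^ (i + j - (m + 1)) * j) := by rw [h1]
    _ = _ := by ring

lemma Tm_le {i j : ℕ} (hj : 0 < j) (m : ℕ) (hm : m ≤ i + j) : Tm i j m ≤ Tm i j i := by
  rcases le_total i m with h | h
  · induction m, h using Nat.le_induction with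
    | base => exact le_rfl
    | succ m hmi ih =>
      have h1 := ih (by omega)
      have h2 := Tm_step i j m hm
      have h3 : (i + j - m) * i ≤ (m + 1) * j := by
        rw [mul_comm (m + 1) j]
        exact Nat.mul_le_mul (by omega) (by omega)
      have h4 : 0 < (m + 1) * j := Nat.mul_pos (Nat.succ_pos _) hj
      have h5 : Tm i j (m + 1) * ((m + 1) * j) ≤ Tm i j m * ((m + 1) * j) := by
        rw [h2]
        exact Nat.mul_le_mul_left _ h3
      exact (le_of_mul_le_mul_right h5 h4).trans h1
  · obtain ⟨d, hd⟩ := Nat.exists_eq_add_of_le h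
    induction d generalizing m with
    | zero =>
      have : m = i := by omega
      rw [this]
    | succ d ih =>
      have h1 := ih (m + 1) (by omega) (by omega) (by omega)
      have h2 := Tm_step i j m (by omega)
      have h3 : (m + 1) * j ≤ (i + j - m) * i := by
        rw [mul_comm (m + 1) j]
        exact Nat.mul_le_mul (by omega) (by omega)
      have h4 : 0 < (m + 1) * j := Nat.mul_pos (Nat.succ_pos _) hj
      have h5 : Tm i j m * ((m + 1) * j) ≤ Tm i j (m + 1) * ((m + 1) * j) := by
        rw [h2]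
        exact Nat.mul_le_mul_left _ h3
      exact (le_of_mul_le_mul_right h5 h4).trans h1

lemma pow_le_choose {i j : ℕ} (hj : 0 < j) :
    (i + j) ^ (i + j) ≤ (i + j + 1) * ((i + j).choose i * (i ^ i * j ^ j)) := by
  have h1 : (i + j) ^ (i + j) = ∑ m ∈ range (i + j + 1), Tm i j m := by
    rw [add_pow]
    refine Finset.sum_congr rfl fun m _ => ?_
    unfold Tm
    rw [Nat.cast_id]
    ring
  rw [h1]
  calc ∑ m ∈ range (i + j + 1), Tm i j m ≤ ∑ _m ∈ range (i + j + 1), Tm i j i :=
        Finset.sum_le_sum fun m hm => Tm_le hj m (by have := Finset.mem_range.1 hm; omega)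
    _ = (i + j + 1) * ((i + j).choose i * (i ^ i * j ^ j)) := by
        rw [Finset.sum_const, Finset.card_range, smul_eq_mul]
        unfold Tm
        rw [Nat.add_sub_cancel_left]

lemma log_choose_ge {i j : ℕ} (hi : 0 < i) (hj : 0 < j) :
    ((i : ℝ) + j) * binEntropy ((i : ℝ) / (i + j)) - log ((i : ℝ) + j + 1) ≤
      log ((i + j).choose i : ℝ) := by
  have hi' : (0 : ℝ) < i := by exact_mod_cast hi
  have hj' : (0 : ℝ) < j := by exact_mod_cast hj
  have hn : (0 : ℝ) < (i : ℝ) + j := by positivity
  have hC : (0 : ℝ) < ((i + j).choose i : ℝ) := by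
    exact_mod_cast Nat.choose_pos (Nat.le_add_right i j)
  have h1 : ((i : ℝ) + j) ^ (i + j) ≤
      ((i : ℝ) + j + 1) * (((i + j).choose i : ℝ) * ((i : ℝ) ^ i * (j : ℝ) ^ j)) := by
    exact_mod_cast pow_le_choose (i := i) hj
  have h2 := Real.log_le_log (by positivity) h1
  rw [Real.log_pow, Real.log_mul (by positivity) (by positivity),
    Real.log_mul hC.ne' (by positivity), Real.log_mul (by positivity) (by positivity),
    Real.log_pow, Real.log_pow] at h2
  have h3 : ((i : ℝ) + j) * binEntropy ((i : ℝ) / (i + j)) =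
      ((i : ℝ) + j) * log ((i : ℝ) + j) - (i * log i + j * log j) := by
    unfold binEntropy
    have e1 : 1 - (i : ℝ) / (i + j) = j / (i + j) := by field_simp; ring
    rw [e1, inv_div, inv_div, Real.log_div hn.ne' hi'.ne', Real.log_div hn.ne' hj'.ne']
    field_simp
    ring
  rw [h3]
  push_cast at h2
  linarith

/-- **The critical region.** -/
lemma exists_theta {a b : ℝ} (ha : 0 < a) (hb : 0 < b) (h1 : 1 < a + b) (h2 : 1 < 1 / a + 1 / b) :
    ∃ θ : ℝ, 0 < θ ∧ θ < 1 ∧ |θ * log a + (1 - θ) * log b| < binEntropy θ := by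
  have hab : 0 < a + b := by positivity
  set L : ℝ → ℝ := fun θ => θ * log a + (1 - θ) * log b with hL
  have t1 : 0 < a / (a + b) ∧ a / (a + b) < 1 := by
    refine ⟨by positivity, ?_⟩
    rw [div_lt_one hab]; linarith
  have t2 : 0 < b / (a + b) ∧ b / (a + b) < 1 := by
    refine ⟨by positivity, ?_⟩
    rw [div_lt_one hab]; linarith
  have k1 : 0 < binEntropy (a / (a + b)) + L (a / (a + b)) := by
    have e1 : 1 - a / (a + b) = b / (a + b) := by field_simp; ring
    have : binEntropy (a / (a + b)) + L (a / (a + b)) = log (a + b) := by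
      simp only [hL]
      unfold binEntropy
      rw [e1, inv_div, inv_div, Real.log_div hab.ne' ha.ne', Real.log_div hab.ne' hb.ne']
      field_simp
      ring
    rw [this]
    exact Real.log_pos h1
  have k2 : 0 < binEntropy (b / (a + b)) - L (b / (a + b)) := by
    have e1 : 1 - b / (a + b) = a / (a + b) := by field_simp; ring
    have : binEntropy (b / (a + b)) - L (b / (a + b)) = log (1 / a + 1 / b) := by
      have e2 : 1 / a + 1 / b = (a + b) / (a * b) := by field_simp; ring
      rw [e2, Real.log_div hab.ne' (by positivity), Real.log_mul ha.ne' hb.ne']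
      simp only [hL]
      unfold binEntropy
      rw [e1, inv_div, inv_div, Real.log_div hab.ne' ha.ne', Real.log_div hab.ne' hb.ne']
      field_simp
      ring
    rw [this]
    exact Real.log_pos h2
  by_cases c1 : L (a / (a + b)) < binEntropy (a / (a + b))
  · exact ⟨_, t1.1, t1.2, abs_lt.2 ⟨by linarith, c1⟩⟩
  by_cases c2 : - binEntropy (b / (a + b)) < L (b / (a + b))
  · exact ⟨_, t2.1, t2.2, abs_lt.2 ⟨c2, by linarith⟩⟩
  push Not at c1 c2
  have p1 : 0 < L (a / (a + b)) := (binEntropy_pos t1.1 t1.2).trans_le c1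
  have p2 : L (b / (a + b)) < 0 := c2.trans_lt (neg_lt_zero.2 (binEntropy_pos t2.1 t2.2))
  set u := L (a / (a + b)) with hu
  set v := L (b / (a + b)) with hv
  have huv : 0 < u - v := by linarith
  refine ⟨(u * (b / (a + b)) - v * (a / (a + b))) / (u - v), ?_, ?_, ?_⟩
  · apply div_pos _ huv
    have := mul_pos p1 t2.1
    have := mul_pos (neg_pos.2 p2) t1.1
    linarith
  · rw [div_lt_one huv]
    have := mul_lt_mul_of_pos_left t2.2 p1
    have := mul_lt_mul_of_pos_left t1.2 (neg_pos.2 p2)
    linarith
  · have h0 : (u * (b / (a + b)) - v * (a / (a + b))) / (u - v) * log a +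
        (1 - (u * (b / (a + b)) - v * (a / (a + b))) / (u - v)) * log b = 0 := by
      have e : (u * (b / (a + b)) - v * (a / (a + b))) / (u - v) * log a +
        (1 - (u * (b / (a + b)) - v * (a / (a + b))) / (u - v)) * log b =
        (u * L (b / (a + b)) - v * L (a / (a + b))) / (u - v) := by
        simp only [hL]
        field_simp
        ring
      rw [e, ← hu, ← hv]
      ring_nf
    rw [h0, abs_zero]
    refine binEntropy_pos ?_ ?_
    · apply div_pos _ huv
      have := mul_pos p1 t2.1
      have := mul_pos (neg_pos.2 p2) t1.1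
      linarith
    · rw [div_lt_one huv]
      have := mul_lt_mul_of_pos_left t2.2 p1
      have := mul_lt_mul_of_pos_left t1.2 (neg_pos.2 p2)
      linarith

end Pool.Agent.H49.FD
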