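import Pool.Agent.H49.FD.Pig
import Pool.Agent.H49.FD.Ent
import Pool.Agent.H49.FD.Cong

/-!
# Pairs which are not free are dense in the critical region
-/

set_option autoImplicit false

namespace Pool.Agent.H49.FD

open Finset Real Pool.Agent.H54.Free

/-- No pair of matrices with the diagonal ratios `a`, `b` generates a free semigroup. -/
def NeverFree (a b : ℚ) : Prop :=
  ∀ x₁ y₁ z₁ x₂ y₂ z₂ : ℕ, 0 < x₁ → 0 < z₁ → 0 < x₂ → 0 < z₂ →
    (x₁ : ℚ) / z₁ = a → (x₂ : ℚ) / z₂ = b → ¬ FreePair x₁ y₁ z₁ x₂ y₂ z₂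

/-- Every noncommuting pair of matrices with the diagonal ratios `a`, `b` generates a free
semigroup. -/
def AlwaysFree (a b : ℚ) : Prop :=
  ∀ x₁ y₁ z₁ x₂ y₂ z₂ : ℕ, 0 < x₁ → 0 < z₁ → 0 < x₂ → 0 < z₂ →
    (x₁ : ℚ) / z₁ = a → (x₂ : ℚ) / z₂ = b →
    (!![x₁, y₁; 0, z₁] : Matrix (Fin 2) (Fin 2) ℕ) * !![x₂, y₂; 0, z₂] ≠
      !![x₂, y₂; 0, z₂] * !![x₁, y₁; 0, z₁] → FreePair x₁ y₁ z₁ x₂ y₂ z₂

/-- `a` and `b` are multiplicatively independent. -/
def MulIndep (a b : ℚ) : Prop := ∀ s t : ℤ, a ^ s * b ^ t = 1 → s = 0 ∧ t = 0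

lemma params0 {a₀ b₀ : ℝ} (ha : 0 < a₀) (hb : 0 < b₀) (h1 : 1 < a₀ + b₀)
    (h2 : 1 < 1 / a₀ + 1 / b₀) {κ : ℝ} (hκ : 0 < κ) {δ : ℝ} (hδ : 0 < δ) :
    ∃ i j : ℕ, 0 < i ∧ 0 < j ∧ Nat.Coprime i j ∧
      κ * exp |i * log a₀ + j * log b₀| < ((i + j).choose j : ℝ) ∧ log κ ≤ δ * j := by
  obtain ⟨θ, hθ0, hθ1, hθ⟩ := exists_theta ha hb h1 h2
  set f : ℝ → ℝ := fun t => binEntropy t - |t * log a₀ + (1 - t) * log b₀| with hf
  have hfc : Continuous f := by
    refine binEntropy_continuous.sub (Continuous.abs ?_)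
    fun_prop
  have hfθ : 0 < f θ := by simp only [hf]; linarith
  set η := f θ / 2 with hη
  have hη0 : 0 < η := by positivity
  obtain ⟨ρ, hρ, hρ2⟩ := Metric.continuousAt_iff.1 (hfc.continuousAt (x := θ)) η hη0
  have hev : ∀ᶠ n : ℕ in Filter.atTop, (1 / (n : ℝ) < ρ ∧ 1 ≤ θ * n) ∧
      (κ * ((n : ℝ) + 1) < exp (η * n) ∧ log κ ≤ δ * ((1 - θ) * n)) := by
    have t0 : Filter.Tendsto (fun n : ℕ => (n : ℝ)) Filter.atTop Filter.atTop :=
      tendsto_natCast_atTop_atTop
    refine Filter.Eventually.and (Filter.Eventually.and ?_ ?_) (Filter.Eventually.and ?_ ?_)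
    · have := tendsto_one_div_atTop_nhds_zero_nat (𝕜 := ℝ)
      exact this.eventually (gt_mem_nhds hρ)
    · exact (t0.const_mul_atTop hθ0).eventually_ge_atTop 1
    · have h3 : Filter.Tendsto (fun n : ℕ => κ * (((n : ℝ) + 1) / exp (η * n)))
          Filter.atTop (nhds (κ * 0)) := by
        refine Filter.Tendsto.const_mul _ ?_
        have e1 := (Real.tendsto_pow_mul_exp_neg_atTop_nhds_zero 1).comp
          (t0.const_mul_atTop hη0)
        have e2 := (Real.tendsto_exp_neg_atTop_nhds_zero).comp (t0.const_mul_atTop hη0)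
        have e3 := (e1.const_mul (1 / η)).add e2
        rw [mul_zero, add_zero] at e3
        refine e3.congr fun n => ?_
        simp only [Function.comp, pow_one]
        rw [Real.exp_neg]
        field_simp
      rw [mul_zero] at h3
      filter_upwards [h3.eventually (gt_mem_nhds (show (0 : ℝ) < 1 by norm_num))] with n hn
      have e : κ * (((n : ℝ) + 1) / exp (η * n)) =
          (κ * ((n : ℝ) + 1)) / exp (η * n) := by
        ring
      rw [e, div_lt_one (Real.exp_pos _)] at hn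
      exact hn
    · have := (t0.const_mul_atTop (show 0 < δ * (1 - θ) by
        exact mul_pos hδ (by linarith))).eventually_ge_atTop (log κ)
      filter_upwards [this] with n hn
      linarith
  obtain ⟨N, hN⟩ := Filter.eventually_atTop.1 hev
  obtain ⟨n, hnN, hnp⟩ := Nat.exists_infinite_primes N
  obtain ⟨⟨g1, g2⟩, g3, g4⟩ := hN n hnN
  have hn0 : (0 : ℝ) < n := by exact_mod_cast hnp.pos
  set i := ⌊θ * n⌋₊ with hi
  have hi1 : (i : ℝ) ≤ θ * n := Nat.floor_le (by positivity)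
  have hi2 : θ * n < i + 1 := Nat.lt_floor_add_one _
  have hi0 : 0 < i := Nat.floor_pos.2 g2
  have hin : i < n := by
    have : (i : ℝ) < n := hi1.trans_lt (by nlinarith)
    exact_mod_cast this
  obtain ⟨j, hj⟩ := Nat.exists_eq_add_of_lt hin
  set j' := j + 1 with hj'
  have hij : n = i + j' := by omega
  have hj0 : 0 < j' := by omega
  have hijr : (n : ℝ) = i + j' := by exact_mod_cast hij
  have hcop : Nat.Coprime i j' := by
    have h3 : Nat.Coprime n i := (Nat.Prime.coprime_iff_not_dvd hnp).2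
      fun h => by have := Nat.le_of_dvd hi0 h; omega
    rw [hij] at h3
    exact (Nat.coprime_add_self_left.1 (by rwa [Nat.add_comm] at h3)).symm
  set t : ℝ := (i : ℝ) / (i + j') with ht
  have htn : t = i / n := by rw [ht, hijr]
  have htθ : dist t θ < ρ := by
    rw [Real.dist_eq, htn]
    have : |(i : ℝ) / n - θ| ≤ 1 / n := by
      have e : (i : ℝ) / n - θ = (i - θ * n) / n := by field_simp
      rw [e, abs_div, abs_of_pos hn0]
      gcongr
      rw [abs_le]
      constructor <;> linarith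
    exact this.trans_lt g1
  have hft := hρ2 htθ
  rw [Real.dist_eq, abs_lt] at hft
  have hft2 : η < f t := by linarith
  set u : ℝ := i * log a₀ + j' * log b₀ with hu
  have hun : |u| = n * |t * log a₀ + (1 - t) * log b₀| := by
    have e : u = n * (t * log a₀ + (1 - t) * log b₀) := by
      rw [htn, hu]
      have : (j' : ℝ) = n - i := by rw [hijr]; ring
      rw [this]
      field_simp
    rw [e, abs_mul, abs_of_pos hn0]
  have hC := log_choose_ge hi0 hj0
  rw [← ht, ← hijr] at hC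
  have hC0 : (0 : ℝ) < ((i + j').choose i : ℝ) := by
    exact_mod_cast Nat.choose_pos (Nat.le_add_right i j')
  have k1 : |u| + η * n ≤ n * binEntropy t := by
    rw [hun]
    simp only [hf] at hft2
    nlinarith
  have k2 : log κ + log ((n : ℝ) + 1) < η * n := by
    have := Real.log_lt_log (by positivity) g3
    rwa [Real.log_mul (by positivity) (by positivity), Real.log_exp] at this
  have k3 : κ * exp |u| < ((i + j').choose i : ℝ) := by
    have h3 : log (κ * exp |u|) < log ((i + j').choose i : ℝ) := by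
      rw [Real.log_mul (by positivity) (Real.exp_pos _).ne', Real.log_exp]
      linarith
    exact (Real.log_lt_log_iff (by positivity) hC0).1 h3
  refine ⟨i, j', hi0, hj0, hcop, ?_, ?_⟩
  · rw [← Nat.choose_symm_add]
    exact k3
  · have l3 : (1 - θ) * n ≤ j' := by
      have : (j' : ℝ) = n - i := by rw [hijr]; ring
      rw [this]; linarith
    have l4 : δ * ((1 - θ) * n) ≤ δ * j' := by gcongr
    exact g4.trans l4

lemma params {a₀ b₀ : ℝ} (ha : 0 < a₀) (hb : 0 < b₀) (h1 : 1 < a₀ + b₀)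
    (h2 : 1 < 1 / a₀ + 1 / b₀) {m : ℕ} [NeZero m] (U V : (ZMod m)ˣ) {δ : ℝ} (hδ : 0 < δ) :
    ∃ i j r : ℕ, 0 < i ∧ 0 < j ∧ Nat.Coprime i j ∧ 2 ≤ r ∧ r < (i + j).choose j ∧
      ∃ R : ℚ, (R = r ∨ R = 1 / r) ∧ |log R - (i * log a₀ + j * log b₀)| ≤ δ * j ∧
        Res m R (U ^ i * V ^ j) := by
  have hm0 : (0 : ℝ) ≤ m := Nat.cast_nonneg m
  obtain ⟨i, j', hi0, hj0, hcop, k3, l4⟩ := params0 ha hb h1 h2
    (show (0 : ℝ) < m + 3 by positivity) hδ
  set u : ℝ := i * log a₀ + j' * log b₀ with hu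
  have hexp : 1 ≤ exp |u| := Real.one_le_exp (abs_nonneg _)
  set W : (ZMod m)ˣ := U ^ i * V ^ j' with hW
  set w : (ZMod m)ˣ := if 0 ≤ u then W else W⁻¹ with hw
  obtain ⟨r, s1, s2, s3⟩ := exists_res (w : ZMod m) (exp |u| + 1) (by positivity)
  have r1 : exp |u| ≤ r := by linarith
  have r2 : (r : ℝ) ≤ (m + 3) * exp |u| := by nlinarith
  have r3 : 2 ≤ r := by
    have : (1 : ℝ) < r := by linarith
    have : 1 < r := by exact_mod_cast this
    omega
  have r0 : (0 : ℝ) < r := by exact_mod_cast (by omega : 0 < r)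
  have r4 : abs (log r - |u|) ≤ δ * j' := by
    have l1 : |u| ≤ log r := by
      have := Real.log_le_log (Real.exp_pos _) r1
      rwa [Real.log_exp] at this
    have l2 : log r ≤ log (m + 3) + |u| := by
      have := Real.log_le_log r0 r2
      rwa [Real.log_mul (by positivity) (Real.exp_pos _).ne', Real.log_exp] at this
    rw [abs_le]
    have : 0 ≤ δ * j' := by positivity
    constructor <;> linarith
  have r5 : r < (i + j').choose j' := by
    have : (r : ℝ) < ((i + j').choose j' : ℝ) := r2.trans_lt k3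
    exact_mod_cast this
  have hres : Res m (r : ℚ) w := by
    unfold Res
    simp only [Rat.num_natCast, Rat.den_natCast, Nat.cast_one, mul_one, Int.cast_natCast]
    exact s3
  have rq : (r : ℚ) ≠ 0 := by exact_mod_cast (by omega : r ≠ 0)
  by_cases h0 : 0 ≤ u
  · refine ⟨i, j', r, hi0, hj0, hcop, r3, r5, (r : ℚ), Or.inl rfl, ?_, ?_⟩
    · rw [abs_of_nonneg h0] at r4
      push_cast
      exact r4
    · rw [hw, if_pos h0] at hres
      exact hres
  · refine ⟨i, j', r, hi0, hj0, hcop, r3, r5, 1 / (r : ℚ), Or.inr rfl, ?_, ?_⟩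
    · rw [abs_of_neg (not_le.1 h0)] at r4
      push_cast
      rw [one_div, Real.log_inv, ← hu]
      have e : -log (r : ℝ) - u = -(log r - -u) := by ring
      rw [e, abs_neg]
      exact r4
    · rw [hw, if_neg h0] at hres
      have h3 := hres.inv rq
      rw [inv_inv] at h3
      rw [one_div]
      exact h3

/-- rationals of given residue with a prime which does not divide `r` -/
lemma exists_rat {c₀ ρ : ℝ} (hc : 0 < c₀) (hρ : 0 < ρ) {r : ℕ} (hr : 0 < r) {m : ℕ} [NeZero m]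
    (γ : (ZMod m)ˣ) :
    ∃ (c : ℚ) (ℓ : ℕ), ℓ.Prime ∧ ¬ ℓ ∣ r ∧ 0 < c ∧ |(c : ℝ) - c₀| < ρ ∧
      padicValRat ℓ c ≠ 0 ∧ Res m c γ := by
  have hm : 0 < m := Nat.pos_of_ne_zero (NeZero.ne m)
  obtain ⟨ℓ, hℓ, hp⟩ := Nat.exists_infinite_primes
    (max (max (r + 1) (m + 1)) (⌈(2 * (m : ℝ)) / ρ⌉₊ + 1))
  have hℓ1 : r + 1 ≤ ℓ := (le_max_left _ _).trans ((le_max_left _ _).trans hℓ)
  have hℓm : m + 1 ≤ ℓ := (le_max_right _ _).trans ((le_max_left _ _).trans hℓ)
  have hℓ2 : ⌈(2 * (m : ℝ)) / ρ⌉₊ + 1 ≤ ℓ := (le_max_right _ _).trans hℓ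
  have hcop : Nat.Coprime ℓ m := (Nat.Prime.coprime_iff_not_dvd hp).2
    fun h => by have := Nat.le_of_dvd hm h; omega
  set k := m.totient with hk
  have hk0 : 0 < k := Nat.totient_pos.2 hm
  set N := ℓ ^ k with hN
  have hNℓ : ℓ ≤ N := Nat.le_self_pow hk0.ne' ℓ
  have hN0 : (0 : ℝ) < N := by
    have : 0 < N := hp.pos.trans_le hNℓ
    exact_mod_cast this
  have hN1 : (N : ZMod m) = 1 := by
    have h1 := ZMod.pow_totient (ZMod.unitOfCoprime ℓ hcop)
    have h2 := congrArg (fun x : (ZMod m)ˣ => (x : ZMod m)) h1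
    simp only [Units.val_pow_eq_pow_val, ZMod.coe_unitOfCoprime, Units.val_one] at h2
    rw [hN]
    push_cast
    exact h2
  have hN2 : (2 * (m : ℝ)) / N < ρ := by
    have h1 := Nat.le_ceil ((2 * (m : ℝ)) / ρ)
    have h2 : ((⌈(2 * (m : ℝ)) / ρ⌉₊ + 1 : ℕ) : ℝ) ≤ N := by exact_mod_cast hℓ2.trans hNℓ
    push_cast at h2
    have h3 : (2 * (m : ℝ)) / ρ < N := by linarith
    rw [div_lt_iff₀ hρ] at h3
    rw [div_lt_iff₀ hN0]
    linarith
  -- an integer `M` near `c₀ N` not divisible by `ℓ` and of the right residue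
  obtain ⟨M, hM0, hM1, hM2, hM3, hM4⟩ : ∃ M : ℕ, 0 < M ∧ ¬ ℓ ∣ M ∧ c₀ * N < M ∧
      (M : ℝ) ≤ c₀ * N + 2 * m ∧ (M : ZMod m) = γ := by
    obtain ⟨M, q1, q2, q3⟩ := exists_res (γ : ZMod m) (c₀ * N) (by positivity)
    have hM0 : 0 < M := by
      have : (0 : ℝ) < M := lt_trans (by positivity) q1
      exact_mod_cast this
    have hm' : (0 : ℝ) < m := by exact_mod_cast hm
    by_cases hd : ℓ ∣ M
    · refine ⟨M + m, by omega, fun h => ?_, by push_cast; linarith, by push_cast; linarith, ?_⟩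
      · have : ℓ ∣ m := (Nat.dvd_add_right hd).1 h
        have := Nat.le_of_dvd hm this
        omega
      · push_cast
        rw [q3]
        simp
    · exact ⟨M, hM0, hd, q1, by linarith, q3⟩
  have : Fact ℓ.Prime := ⟨hp⟩
  have hMq : (M : ℚ) ≠ 0 := by exact_mod_cast hM0.ne'
  have hNq : (N : ℚ) ≠ 0 := by
    have : 0 < N := hp.pos.trans_le hNℓ
    exact_mod_cast this.ne'
  refine ⟨(M : ℚ) / N, ℓ, hp, fun h => ?_, ?_, ?_, ?_, ?_⟩
  · have := Nat.le_of_dvd hr h
    omega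
  · have h1 : (0 : ℚ) < M := by exact_mod_cast hM0
    have h2 : (0 : ℚ) < N := lt_of_le_of_ne (Nat.cast_nonneg _) hNq.symm
    positivity
  · push_cast
    have e : (M : ℝ) / N - c₀ = (M - c₀ * N) / N := by field_simp
    rw [e, abs_div, abs_of_pos hN0]
    refine lt_of_le_of_lt ?_ hN2
    gcongr
    rw [abs_le]
    have : (0 : ℝ) ≤ m := Nat.cast_nonneg m
    constructor <;> linarith
  · rw [padicValRat.div hMq hNq, padicValRat.of_nat, padicValRat.of_nat,
      padicValNat.eq_zero_of_not_dvd hM1, hN, padicValNat.prime_pow]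
    simp only [Nat.cast_zero, zero_sub, ne_eq, neg_eq_zero, Nat.cast_eq_zero]
    exact hk0.ne'
  · refine Res.of_frac (P := M) (Q := N) ?_ ?_ ?_ ?_
    · exact_mod_cast hNq
    · push_cast
      rw [hN1]
      exact isUnit_one
    · push_cast
      rw [hN1, hM4, mul_one]
    · push_cast
      rfl

lemma grp {G : Type*} [CommGroup G] (u v : G) (i j : ℕ) (x y : ℤ) (h : x * i + y * j = 1) :
    (u ^ i * v ^ j) ^ x * (u ^ y * v ^ (-x)) ^ j = u ∧
      (u ^ i * v ^ j) ^ y * ((u ^ y * v ^ (-x)) ^ i)⁻¹ = v := by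
  have a1 : (u ^ i * v ^ j) ^ x = u ^ (i * x) * v ^ (j * x) := by
    rw [mul_zpow, ← zpow_natCast u i, ← zpow_natCast v j, ← zpow_mul, ← zpow_mul]
  have a2 : (u ^ i * v ^ j) ^ y = u ^ (i * y) * v ^ (j * y) := by
    rw [mul_zpow, ← zpow_natCast u i, ← zpow_natCast v j, ← zpow_mul, ← zpow_mul]
  have a3 : (u ^ y * v ^ (-x)) ^ j = u ^ (y * j) * v ^ (-x * j) := by
    rw [mul_pow, ← zpow_natCast (u ^ y) j, ← zpow_natCast (v ^ (-x)) j, ← zpow_mul, ← zpow_mul]
  have a4 : ((u ^ y * v ^ (-x)) ^ i)⁻¹ = u ^ (-(y * i)) * v ^ (x * i) := by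
    rw [mul_pow, ← zpow_natCast (u ^ y) i, ← zpow_natCast (v ^ (-x)) i, ← zpow_mul, ← zpow_mul,
      mul_inv, ← zpow_neg, ← zpow_neg, neg_mul, neg_neg]
  constructor
  · rw [a1, a3, mul_mul_mul_comm, ← zpow_add, ← zpow_add]
    have e1 : (i : ℤ) * x + y * j = 1 := by linarith
    have e2 : (j : ℤ) * x + -x * j = 0 := by ring
    rw [e1, e2, zpow_one, zpow_zero, mul_one]
  · rw [a2, a4, mul_mul_mul_comm, ← zpow_add, ← zpow_add]
    have e1 : (i : ℤ) * y + -(y * i) = 0 := by ring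
    have e2 : (j : ℤ) * y + x * i = 1 := by linarith
    rw [e1, e2, zpow_one, zpow_zero, one_mul]

/-- **Density.** -/
theorem dense_never {a₀ b₀ ε : ℝ} (ha : 0 < a₀) (hb : 0 < b₀) (h1 : 1 < a₀ + b₀)
    (h2 : 1 < 1 / a₀ + 1 / b₀) (hε : 0 < ε) {m : ℕ} [NeZero m] (U V : (ZMod m)ˣ) :
    ∃ a b : ℚ, 0 < a ∧ 0 < b ∧ |(a : ℝ) - a₀| < ε ∧ |(b : ℝ) - b₀| < ε ∧ MulIndep a b ∧
      Res m a U ∧ Res m b V ∧ NeverFree a b := by
  have hexp := Real.continuous_exp.continuousAt (x := log b₀)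
  obtain ⟨δ, hδ, hδ2⟩ := Metric.continuousAt_iff.1 hexp (ε / 2) (by positivity)
  rw [Real.exp_log hb] at hδ2
  obtain ⟨i, j, r, hi, hj, hcop, hr, hrC, R, hR, hRu, hRres⟩ :=
    params ha hb h1 h2 U V (show 0 < δ / 2 by positivity)
  have hr0 : (0 : ℚ) < r := by exact_mod_cast (by omega : 0 < r)
  have hR0 : 0 < R := by
    rcases hR with h | h <;> rw [h]
    · exact hr0
    · positivity
  have hR1 : R ≠ 1 := by
    have hr1 : (1 : ℚ) < r := by exact_mod_cast (by omega : 1 < r)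
    rcases hR with h | h <;> rw [h]
    · exact hr1.ne'
    · rw [Ne, div_eq_one_iff_eq hr0.ne']
      exact hr1.ne
  have hRr : (0 : ℝ) < (R : ℝ) := by exact_mod_cast hR0
  have hij : IsCoprime (i : ℤ) j := Nat.isCoprime_iff_coprime.2 hcop
  obtain ⟨x, y, hxy⟩ := hij
  have hj' : (0 : ℝ) < j := by exact_mod_cast hj
  have hxyr : (x : ℝ) * i + y * j = 1 := by exact_mod_cast hxy
  set c₀ : ℝ := exp ((log a₀ - x * log R) / j) with hc₀
  have hc0 : 0 < c₀ := Real.exp_pos _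
  set fa : ℝ → ℝ := fun c => (R : ℝ) ^ x * c ^ j with hfa
  set fb : ℝ → ℝ := fun c => (R : ℝ) ^ y * (c ^ i)⁻¹ with hfb
  have hRz : ∀ z : ℤ, (R : ℝ) ^ z = exp (z * log R) := fun z => by
    rw [mul_comm, Real.exp_mul, Real.exp_log hRr, Real.rpow_intCast]
  have fa0 : fa c₀ = a₀ := by
    simp only [hfa, hc₀]
    rw [hRz, ← Real.exp_nat_mul, ← Real.exp_add]
    have : (x : ℝ) * log R + j * ((log a₀ - x * log R) / j) = log a₀ := by
      field_simp
      ring
    rw [this, Real.exp_log ha]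
  have fb0 : |fb c₀ - b₀| < ε / 2 := by
    have e1 : fb c₀ = exp ((log R - i * log a₀) / j) := by
      simp only [hfb, hc₀]
      rw [hRz, ← Real.exp_nat_mul, ← Real.exp_neg, ← Real.exp_add]
      congr 1
      have e : (y : ℝ) * log R = (1 - x * i) / j * log R := by
        have : (y : ℝ) = (1 - x * i) / j := by
          field_simp
          linarith
        rw [← this]
      rw [e]
      field_simp
      ring
    rw [e1]
    have h3 : dist ((log R - i * log a₀) / j) (log b₀) < δ := by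
      rw [Real.dist_eq]
      have e2 : (log R - i * log a₀) / j - log b₀ =
          (log R - (i * log a₀ + j * log b₀)) / j := by field_simp; ring
      rw [e2, abs_div, abs_of_pos hj', div_lt_iff₀ hj']
      refine hRu.trans_lt ?_
      gcongr
      linarith
    exact hδ2 h3
  have cfa : ContinuousAt fa c₀ := by
    simp only [hfa]
    fun_prop
  have cfb : ContinuousAt fb c₀ := by
    simp only [hfb]
    refine ContinuousAt.mul continuousAt_const (ContinuousAt.inv₀ (by fun_prop) ?_)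
    exact (pow_pos hc0 _).ne'
  obtain ⟨ρ₁, hρ₁, hf1⟩ := Metric.continuousAt_iff.1 cfa ε hε
  obtain ⟨ρ₂, hρ₂, hf2⟩ := Metric.continuousAt_iff.1 cfb (ε / 2) (by positivity)
  obtain ⟨c, ℓ, hp, hℓr, hc, hcc, hv, hcres⟩ := exists_rat hc0 (lt_min hρ₁ hρ₂)
    (show 0 < r by omega) (U ^ y * V ^ (-x))
  have : Fact ℓ.Prime := ⟨hp⟩
  set a : ℚ := R ^ x * c ^ j with hadef
  set b : ℚ := R ^ y * (c ^ i)⁻¹ with hbdef
  have ha' : 0 < a := by positivity
  have hb' : 0 < b := by positivity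
  have hab : a ^ i * b ^ j = R := by
    rw [hadef, hbdef, mul_pow, mul_pow]
    have e1 : (R ^ x) ^ i * (R ^ y) ^ j = R := by
      rw [← zpow_natCast, ← zpow_natCast, ← zpow_mul, ← zpow_mul, ← zpow_add₀ hR0.ne', hxy,
        zpow_one]
    have e2 : (c ^ j) ^ i * ((c ^ i)⁻¹) ^ j = 1 := by
      rw [inv_pow, ← pow_mul, ← pow_mul, mul_comm j i]
      exact mul_inv_cancel₀ (pow_pos hc _).ne'
    calc (R ^ x) ^ i * (c ^ j) ^ i * ((R ^ y) ^ j * ((c ^ i)⁻¹) ^ j)
        = ((R ^ x) ^ i * (R ^ y) ^ j) * ((c ^ j) ^ i * ((c ^ i)⁻¹) ^ j) := by ring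
      _ = R := by rw [e1, e2, mul_one]
  refine ⟨a, b, ha', hb', ?_, ?_, ?_, ?_, ?_, ?_⟩
  · have h3 : (a : ℝ) = fa c := by rw [hadef]; push_cast; rfl
    rw [h3, ← fa0]
    exact hf1 (by rw [Real.dist_eq]; exact hcc.trans_le (min_le_left _ _))
  · have h3 : (b : ℝ) = fb c := by rw [hbdef]; push_cast; rfl
    rw [h3]
    have h4 := hf2 (show dist (c : ℝ) c₀ < ρ₂ by
      rw [Real.dist_eq]; exact hcc.trans_le (min_le_right _ _))
    rw [Real.dist_eq] at h4
    calc |fb c - b₀| = |(fb c - fb c₀) + (fb c₀ - b₀)| := by ring_nf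
      _ ≤ |fb c - fb c₀| + |fb c₀ - b₀| := abs_add_le _ _
      _ < ε / 2 + ε / 2 := add_lt_add h4 fb0
      _ = ε := by ring
  · -- multiplicative independence
    intro s t hst
    have hvR : padicValRat ℓ R = 0 := by
      have h3 : padicValRat ℓ (r : ℚ) = 0 := by
        rw [padicValRat.of_nat, padicValNat.eq_zero_of_not_dvd hℓr]
        rfl
      rcases hR with h | h
      · rw [h, h3]
      · rw [h, padicValRat.div one_ne_zero hr0.ne', h3, padicValRat.one]
        ring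
    have hva : padicValRat ℓ a = j * padicValRat ℓ c := by
      rw [hadef, padicValRat.mul (zpow_pos hR0 _).ne' (pow_pos hc _).ne', padicValRat.zpow,
        padicValRat.pow, hvR]
      ring
    have hvb : padicValRat ℓ b = -(i * padicValRat ℓ c) := by
      rw [hbdef, padicValRat.mul (zpow_pos hR0 _).ne' (inv_pos.2 (pow_pos hc _)).ne',
        padicValRat.zpow, padicValRat.inv, padicValRat.pow, hvR]
      ring
    have h3 : padicValRat ℓ (a ^ s * b ^ t) = 0 := by rw [hst]; simp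
    rw [padicValRat.mul (zpow_pos ha' _).ne' (zpow_pos hb' _).ne', padicValRat.zpow,
      padicValRat.zpow, hva, hvb] at h3
    have h4 : (s * j - t * i) * padicValRat ℓ c = 0 := by linear_combination h3
    have h5 : s * j = t * i := by
      rcases mul_eq_zero.1 h4 with h | h
      · linarith
      · exact absurd h hv
    set k := x * s + y * t with hk
    have hs : s = i * k := by
      rw [hk]
      linear_combination (-s) * hxy + y * h5
    have ht : t = j * k := by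
      rw [hk]
      linear_combination (-t) * hxy - x * h5
    have h6 : R ^ k = 1 := by
      rw [← hab, ← hst, hs, ht]
      rw [mul_zpow, zpow_mul, zpow_mul, zpow_natCast, zpow_natCast]
    have hk0 : k = 0 := by
      exact (zpow_eq_one_iff_right₀ hR0.le hR1).1 h6
    rw [hs, ht, hk0]
    simp
  · have h3 := (hRres.zpow hR0.ne' x).mul (hcres.pow j)
    rw [(grp U V i j x y hxy).1] at h3
    exact h3
  · have h3 := (hRres.zpow hR0.ne' y).mul ((hcres.pow i).inv (pow_pos hc _).ne')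
    rw [(grp U V i j x y hxy).2] at h3
    exact h3
  · -- no pair is free
    intro x₁ y₁ z₁ x₂ y₂ z₂ hx₁ hz₁ hx₂ hz₂ e₁ e₂
    have hz1 : (z₁ : ℚ) ≠ 0 := by exact_mod_cast hz₁.ne'
    have hz2 : (z₂ : ℚ) ≠ 0 := by exact_mod_cast hz₂.ne'
    have hXZ : ((x₁ ^ i * x₂ ^ j : ℕ) : ℚ) = R * ((z₁ ^ i * z₂ ^ j : ℕ) : ℚ) := by
      rw [← hab, ← e₁, ← e₂, div_pow, div_pow]
      push_cast
      have hz1' : (z₁ : ℚ) ^ i ≠ 0 := pow_ne_zero _ hz1
      have hz2' : (z₂ : ℚ) ^ j ≠ 0 := pow_ne_zero _ hz2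
      field_simp
    have hX0 : 0 < x₁ ^ i * x₂ ^ j := Nat.mul_pos (pow_pos hx₁ _) (pow_pos hx₂ _)
    have hZ0 : 0 < z₁ ^ i * z₂ ^ j := Nat.mul_pos (pow_pos hz₁ _) (pow_pos hz₂ _)
    refine not_free_of_height hx₁ hz₁ hx₂ hz₂ (S := i) (K := j) ?_
    rcases hR with h | h
    · rw [h] at hXZ
      have h3 : x₁ ^ i * x₂ ^ j = r * (z₁ ^ i * z₂ ^ j) := by exact_mod_cast hXZ
      rw [h3, Nat.gcd_eq_right (Dvd.intro_left r rfl), max_eq_left]
      · exact Nat.mul_lt_mul_of_pos_right hrC hZ0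
      · exact Nat.le_mul_of_pos_left _ (by omega)
    · rw [h] at hXZ
      have h3 : z₁ ^ i * z₂ ^ j = r * (x₁ ^ i * x₂ ^ j) := by
        have : ((z₁ ^ i * z₂ ^ j : ℕ) : ℚ) = r * ((x₁ ^ i * x₂ ^ j : ℕ) : ℚ) := by
          rw [hXZ]
          field_simp
        exact_mod_cast this
      rw [h3, Nat.gcd_eq_left (Dvd.intro_left r rfl), max_eq_right]
      · exact Nat.mul_lt_mul_of_pos_right hrC hX0
      · exact Nat.le_mul_of_pos_left _ (by omega)

end Pool.Agent.H49.FD
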