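import Pool.Agent.H49.FD.Clos

/-!
# The closure at a prime
-/

set_option autoImplicit false

namespace Pool.Agent.H49.FD

open Finset Real Pool.Agent.H54.Free

lemma never_of_height {a b : ℚ} {i j N₁ N₂ : ℕ} (hN₁ : 0 < N₁) (hN₂ : 0 < N₂)
    (hab : a ^ i * b ^ j = (N₁ : ℚ) / N₂) (h₁ : N₁ < (i + j).choose j)
    (h₂ : N₂ < (i + j).choose j) : NeverFree a b := by
  intro x₁ y₁ z₁ x₂ y₂ z₂ hx₁ hz₁ hx₂ hz₂ e₁ e₂
  have hz1 : (z₁ : ℚ) ≠ 0 := by exact_mod_cast hz₁.ne'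
  have hz2 : (z₂ : ℚ) ≠ 0 := by exact_mod_cast hz₂.ne'
  have hN2 : (N₂ : ℚ) ≠ 0 := by exact_mod_cast hN₂.ne'
  set X := x₁ ^ i * x₂ ^ j with hX
  set Z := z₁ ^ i * z₂ ^ j with hZ
  have hX0 : 0 < X := Nat.mul_pos (pow_pos hx₁ _) (pow_pos hx₂ _)
  have hZ0 : 0 < Z := Nat.mul_pos (pow_pos hz₁ _) (pow_pos hz₂ _)
  have hZq : (Z : ℚ) ≠ 0 := by exact_mod_cast hZ0.ne'
  have h3 : (X : ℚ) / Z = N₁ / N₂ := by
    rw [← hab, ← e₁, ← e₂, div_pow, div_pow, hX, hZ]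
    push_cast
    rw [div_mul_div_comm]
  have h4 : X * N₂ = N₁ * Z := by
    rw [div_eq_div_iff hZq hN2] at h3
    exact_mod_cast h3
  refine not_free_of_height hx₁ hz₁ hx₂ hz₂ (S := i) (K := j) ?_
  rw [← hX, ← hZ]
  set g := Nat.gcd X Z with hg
  have hg0 : 0 < g := Nat.gcd_pos_of_pos_left _ hX0
  obtain ⟨X', Z', hcop, hX', hZ'⟩ := Nat.exists_coprime X Z
  rw [← hg] at hX' hZ'
  have h5 : X' * N₂ = N₁ * Z' := by
    have : g * (X' * N₂) = g * (N₁ * Z') := by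
      calc g * (X' * N₂) = (X' * g) * N₂ := by ring
        _ = N₁ * (Z' * g) := by rw [← hX', ← hZ', h4]
        _ = _ := by ring
    exact Nat.eq_of_mul_eq_mul_left hg0 this
  have h6 : X' ∣ N₁ := hcop.dvd_of_dvd_mul_right (h5 ▸ dvd_mul_right X' N₂)
  have h7 : Z' ∣ N₂ := hcop.symm.dvd_of_dvd_mul_left (h5 ▸ dvd_mul_left Z' N₁)
  have h8 := Nat.le_of_dvd hN₁ h6
  have h9 := Nat.le_of_dvd hN₂ h7
  rw [max_lt_iff]
  constructor
  · calc X = X' * g := hX'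
      _ < _ := Nat.mul_lt_mul_of_pos_right (h8.trans_lt h₁) hg0
  · calc Z = Z' * g := hZ'
      _ < _ := Nat.mul_lt_mul_of_pos_right (h9.trans_lt h₂) hg0

/-- the pairs constructed from `R` and `c` -/
lemma build {i j : ℕ} {x y : ℤ} (hxy : x * i + y * j = 1) {R c : ℚ} (hR0 : 0 < R) (hR1 : R ≠ 1)
    (hc : 0 < c) {q : ℕ} [Fact q.Prime] (hvR : padicValRat q R = 0) (hv : padicValRat q c ≠ 0)
    {N₁ N₂ : ℕ} (hN₁ : 0 < N₁) (hN₂ : 0 < N₂) (hRN : R = (N₁ : ℚ) / N₂)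
    (h₁ : N₁ < (i + j).choose j) (h₂ : N₂ < (i + j).choose j) :
    MulIndep (R ^ x * c ^ j) (R ^ y * (c ^ i)⁻¹) ∧ NeverFree (R ^ x * c ^ j) (R ^ y * (c ^ i)⁻¹) := by
  set a : ℚ := R ^ x * c ^ j with hadef
  set b : ℚ := R ^ y * (c ^ i)⁻¹ with hbdef
  have ha' : 0 < a := by positivity
  have hb' : 0 < b := by positivity
  have hab : a ^ i * b ^ j = R := by
    rw [hadef, hbdef, mul_pow, mul_pow]
    have e1 : (R ^ x) ^ i * (R ^ y) ^ j = R := by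
      rw [← zpow_natCast, ← zpow_natCast, ← zpow_mul, ← zpow_mul, ← zpow_add₀ hR0.ne', hxy,
        zpow_one]
    have e2 : (c ^ j) ^ i * ((c ^ i)⁻¹) ^ j = 1 := by
      rw [inv_pow, ← pow_mul, ← pow_mul, mul_comm j i]
      exact mul_inv_cancel₀ (pow_pos hc _).ne'
    calc (R ^ x) ^ i * (c ^ j) ^ i * ((R ^ y) ^ j * ((c ^ i)⁻¹) ^ j)
        = ((R ^ x) ^ i * (R ^ y) ^ j) * ((c ^ j) ^ i * ((c ^ i)⁻¹) ^ j) := by ring
      _ = R := by rw [e1, e2, mul_one]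
  constructor
  · intro s t hst
    have hva : padicValRat q a = j * padicValRat q c := by
      rw [hadef, padicValRat.mul (zpow_pos hR0 _).ne' (pow_pos hc _).ne', padicValRat.zpow,
        padicValRat.pow, hvR]
      ring
    have hvb : padicValRat q b = -(i * padicValRat q c) := by
      rw [hbdef, padicValRat.mul (zpow_pos hR0 _).ne' (inv_pos.2 (pow_pos hc _)).ne',
        padicValRat.zpow, padicValRat.inv, padicValRat.pow, hvR]
      ring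
    have h3 : padicValRat q (a ^ s * b ^ t) = 0 := by rw [hst]; simp
    rw [padicValRat.mul (zpow_pos ha' _).ne' (zpow_pos hb' _).ne', padicValRat.zpow,
      padicValRat.zpow, hva, hvb] at h3
    have h4 : (s * j - t * i) * padicValRat q c = 0 := by linear_combination h3
    have h5 : s * j = t * i := by
      rcases mul_eq_zero.1 h4 with h | h
      · linarith
      · exact absurd h hv
    set k := x * s + y * t with hk
    have hs : s = i * k := by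
      rw [hk]
      linear_combination (-s) * hxy + y * h5
    have ht : t = j * k := by
      rw [hk]
      linear_combination (-t) * hxy - x * h5
    have h6 : R ^ k = 1 := by
      rw [← hab, ← hst, hs, ht]
      rw [mul_zpow, zpow_mul, zpow_mul, zpow_natCast, zpow_natCast]
    have hk0 : k = 0 := (zpow_eq_one_iff_right₀ hR0.le hR1).1 h6
    rw [hs, ht, hk0]
    simp
  · exact never_of_height hN₁ hN₂ (hab.trans hRN) h₁ h₂

/-- **Density at a prime** (and residues at the others). -/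
theorem dense_never_p {ℓ : ℕ} [hℓ : Fact ℓ.Prime] {e f : ℤ} (hef : e * f ≤ 0) {m : ℕ} [NeZero m]
    (hm : ℓ ∣ m) (U V : (ZMod m)ˣ) :
    ∃ a b a' b' : ℚ, 0 < a ∧ 0 < b ∧ a = (ℓ : ℚ) ^ e * a' ∧ b = (ℓ : ℚ) ^ f * b' ∧
      Res m a' U ∧ Res m b' V ∧ MulIndep a b ∧ NeverFree a b := by
  have hp := hℓ.out
  have hℓ0 : (0 : ℝ) < ℓ := by exact_mod_cast hp.pos
  have hℓ1 : (1 : ℝ) < ℓ := by exact_mod_cast hp.one_lt
  have hℓq : (0 : ℚ) < ℓ := by exact_mod_cast hp.pos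
  have hreg : (1 : ℝ) < (ℓ : ℝ) ^ e + (ℓ : ℝ) ^ f ∧
      (1 : ℝ) < 1 / (ℓ : ℝ) ^ e + 1 / (ℓ : ℝ) ^ f := by
    have pe : 0 < (ℓ : ℝ) ^ e := zpow_pos hℓ0 _
    have pf : 0 < (ℓ : ℝ) ^ f := zpow_pos hℓ0 _
    have pe' : 0 < 1 / (ℓ : ℝ) ^ e := by positivity
    have pf' : 0 < 1 / (ℓ : ℝ) ^ f := by positivity
    have h1 : (0 ≤ e ∧ f ≤ 0) ∨ (e ≤ 0 ∧ 0 ≤ f) := by
      rcases le_total 0 e with he | he <;> rcases le_total 0 f with hf | hf
      · rcases he.eq_or_lt with h | h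
        · exact Or.inr ⟨h.symm.le, hf⟩
        · have : f = 0 := by nlinarith
          exact Or.inl ⟨he, this.le⟩
      · exact Or.inl ⟨he, hf⟩
      · exact Or.inr ⟨he, hf⟩
      · rcases he.eq_or_lt with h | h
        · exact Or.inl ⟨h.symm.le, hf⟩
        · have : f = 0 := by nlinarith
          exact Or.inr ⟨he, this.symm.le⟩
    rcases h1 with ⟨he, hf⟩ | ⟨he, hf⟩
    · have k1 : (1 : ℝ) ≤ (ℓ : ℝ) ^ e := one_le_zpow₀ hℓ1.le he
      have k2 : (ℓ : ℝ) ^ f ≤ 1 := zpow_le_one_of_nonpos₀ hℓ1.le hf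
      have k3 : 1 ≤ 1 / (ℓ : ℝ) ^ f := by rw [one_le_div pf]; exact k2
      constructor <;> linarith
    · have k1 : (1 : ℝ) ≤ (ℓ : ℝ) ^ f := one_le_zpow₀ hℓ1.le hf
      have k2 : (ℓ : ℝ) ^ e ≤ 1 := zpow_le_one_of_nonpos₀ hℓ1.le he
      have k3 : 1 ≤ 1 / (ℓ : ℝ) ^ e := by rw [one_le_div pe]; exact k2
      constructor <;> linarith
  obtain ⟨i, j, hi, hj, hcop, hC, -⟩ := params0 (zpow_pos hℓ0 e) (zpow_pos hℓ0 f) hreg.1 hreg.2
    (show (0 : ℝ) < m + 1 by positivity) one_pos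
  have hij : IsCoprime (i : ℤ) j := Nat.isCoprime_iff_coprime.2 hcop
  obtain ⟨x, y, hxy⟩ := hij
  set E : ℤ := i * e + j * f with hE
  have hexp : exp |(i : ℝ) * log ((ℓ : ℝ) ^ e) + j * log ((ℓ : ℝ) ^ f)| = (ℓ : ℝ) ^ E.natAbs := by
    rw [Real.log_zpow, Real.log_zpow]
    have e1 : (i : ℝ) * (e * log ℓ) + j * (f * log ℓ) = E * log ℓ := by
      rw [hE]; push_cast; ring
    rw [e1, abs_mul, abs_of_pos (Real.log_pos hℓ1), ← Int.cast_abs, Int.abs_eq_natAbs,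
      Int.cast_natCast, Real.exp_nat_mul, Real.exp_log hℓ0]
  rw [hexp] at hC
  obtain ⟨ρ, r1, r2, r3⟩ := exists_res ((U ^ i * V ^ j : (ZMod m)ˣ) : ZMod m) 1 (by norm_num)
  have hρ1 : 1 < ρ := by exact_mod_cast r1
  have hρ0 : 0 < ρ := by omega
  have hρcop : Nat.Coprime ρ m := by
    rw [← ZMod.isUnit_iff_coprime, r3]
    exact Units.isUnit _
  have hρℓ : ¬ ℓ ∣ ρ := by
    intro h
    have h1 := Nat.dvd_gcd h hm
    rw [hρcop.gcd_eq_one] at h1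
    exact hp.one_lt.ne' (Nat.dvd_one.1 h1)
  obtain ⟨c', q, hq, hqr, hc', -, hvc, hcres⟩ := exists_rat (one_pos : (0 : ℝ) < 1)
    (one_pos : (0 : ℝ) < 1) (Nat.mul_pos hρ0 hp.pos) (U ^ y * V ^ (-x))
  have : Fact q.Prime := ⟨hq⟩
  have hqρ : ¬ q ∣ ρ := fun h => hqr (h.mul_right _)
  have hqℓ : ¬ q ∣ ℓ := fun h => hqr (h.mul_left _)
  have hρq : (0 : ℚ) < ρ := by exact_mod_cast hρ0
  have vρ : padicValRat q (ρ : ℚ) = 0 := by
    rw [padicValRat.of_nat, padicValNat.eq_zero_of_not_dvd hqρ]; rfl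
  have vℓ : padicValRat q (ℓ : ℚ) = 0 := by
    rw [padicValRat.of_nat, padicValNat.eq_zero_of_not_dvd hqℓ]; rfl
  set R : ℚ := (ℓ : ℚ) ^ E * ρ with hR
  set g : ℤ := y * e - x * f with hg
  set c : ℚ := (ℓ : ℚ) ^ g * c' with hc
  have hR0 : 0 < R := mul_pos (zpow_pos hℓq _) hρq
  have hc0 : 0 < c := mul_pos (zpow_pos hℓq _) hc'
  have hR1 : R ≠ 1 := by
    intro h0
    have h1 : padicValRat ℓ R = E := by
      rw [hR, padicValRat.mul (zpow_pos hℓq _).ne' hρq.ne', padicValRat.zpow,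
        padicValRat.self hp.one_lt, padicValRat.of_nat, padicValNat.eq_zero_of_not_dvd hρℓ]
      push_cast
      ring
    rw [h0, padicValRat.one] at h1
    rw [hR, ← h1, zpow_zero, one_mul] at h0
    have : ρ = 1 := by exact_mod_cast h0
    omega
  have vR : padicValRat q R = 0 := by
    rw [hR, padicValRat.mul (zpow_pos hℓq _).ne' hρq.ne', padicValRat.zpow, vρ, vℓ]
    ring
  have vc : padicValRat q c ≠ 0 := by
    rw [hc, padicValRat.mul (zpow_pos hℓq _).ne' hc'.ne', padicValRat.zpow, vℓ, mul_zero, zero_add]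
    exact hvc
  -- numerator and denominator of `R`
  obtain ⟨N₁, N₂, hN₁, hN₂, hRN, h₁, h₂⟩ : ∃ N₁ N₂ : ℕ, 0 < N₁ ∧ 0 < N₂ ∧
      R = (N₁ : ℚ) / N₂ ∧ N₁ < (i + j).choose j ∧ N₂ < (i + j).choose j := by
    have hpow : (1 : ℝ) ≤ (ℓ : ℝ) ^ E.natAbs := one_le_pow₀ hℓ1.le
    have hm0 : (0 : ℝ) ≤ m := Nat.cast_nonneg m
    have b1 : ((ℓ ^ E.natAbs * ρ : ℕ) : ℝ) < ((i + j).choose j : ℝ) := by
      push_cast
      refine lt_of_le_of_lt ?_ hC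
      rw [mul_comm]
      gcongr
      linarith
    have b2 : ((ℓ ^ E.natAbs : ℕ) : ℝ) < ((i + j).choose j : ℝ) := by
      push_cast
      refine lt_of_le_of_lt ?_ hC
      nlinarith
    have b3 : (ρ : ℝ) < ((i + j).choose j : ℝ) := by
      refine lt_of_le_of_lt ?_ hC
      nlinarith
    have b4 : ((1 : ℕ) : ℝ) < ((i + j).choose j : ℝ) := by
      push_cast
      linarith
    rcases le_total 0 E with h0 | h0
    · refine ⟨ℓ ^ E.natAbs * ρ, 1, Nat.mul_pos (pow_pos hp.pos _) hρ0, one_pos, ?_,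
        by exact_mod_cast b1, by exact_mod_cast b4⟩
      have h3 : (E.natAbs : ℤ) = E := Int.natAbs_of_nonneg h0
      rw [hR, Nat.cast_one, div_one]
      push_cast
      rw [← zpow_natCast (ℓ : ℚ) E.natAbs, h3]
    · refine ⟨ρ, ℓ ^ E.natAbs, hρ0, pow_pos hp.pos _, ?_, by exact_mod_cast b3,
        by exact_mod_cast b2⟩
      have h3 : (E.natAbs : ℤ) = -E := Int.ofNat_natAbs_of_nonpos h0
      rw [hR]
      push_cast
      rw [← zpow_natCast (ℓ : ℚ) E.natAbs, h3, zpow_neg, div_inv_eq_mul, mul_comm]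
  obtain ⟨w1, w2⟩ := build hxy hR0 hR1 hc0 vR vc hN₁ hN₂ hRN h₁ h₂
  have hρres : Res m (ρ : ℚ) (U ^ i * V ^ j) := by
    unfold Res
    simp only [Rat.num_natCast, Rat.den_natCast, Nat.cast_one, mul_one, Int.cast_natCast]
    exact r3
  refine ⟨R ^ x * c ^ j, R ^ y * (c ^ i)⁻¹, (ρ : ℚ) ^ x * c' ^ j, (ρ : ℚ) ^ y * (c' ^ i)⁻¹,
    mul_pos (zpow_pos hR0 _) (pow_pos hc0 _), mul_pos (zpow_pos hR0 _)
    (inv_pos.2 (pow_pos hc0 _)), ?_, ?_, ?_, ?_, w1, w2⟩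
  · rw [hR, hc, mul_zpow, mul_pow, ← zpow_mul, ← zpow_natCast ((ℓ : ℚ) ^ g) j, ← zpow_mul]
    have e1 : E * x + g * j = e := by rw [hE, hg]; linear_combination e * hxy
    calc (ℓ : ℚ) ^ (E * x) * (ρ : ℚ) ^ x * ((ℓ : ℚ) ^ (g * j) * c' ^ j)
        = ((ℓ : ℚ) ^ (E * x) * (ℓ : ℚ) ^ (g * j)) * ((ρ : ℚ) ^ x * c' ^ j) := by ring
      _ = _ := by rw [← zpow_add₀ hℓq.ne', e1]
  · rw [hR, hc, mul_zpow, mul_pow, ← zpow_mul, ← zpow_natCast ((ℓ : ℚ) ^ g) i, ← zpow_mul,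
      mul_inv, ← zpow_neg]
    have e1 : E * y + -(g * i) = f := by rw [hE, hg]; linear_combination f * hxy
    calc (ℓ : ℚ) ^ (E * y) * (ρ : ℚ) ^ y * ((ℓ : ℚ) ^ (-(g * i)) * (c' ^ i)⁻¹)
        = ((ℓ : ℚ) ^ (E * y) * (ℓ : ℚ) ^ (-(g * i))) * ((ρ : ℚ) ^ y * (c' ^ i)⁻¹) := by ring
      _ = _ := by rw [← zpow_add₀ hℓq.ne', e1]
  · have h3 := (hρres.zpow hρq.ne' x).mul (hcres.pow j)
    rw [(grp U V i j x y hxy).1] at h3
    exact h3
  · have h3 := (hρres.zpow hρq.ne' y).mul ((hcres.pow i).inv (pow_pos hc' _).ne')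
    rw [(grp U V i j x y hxy).2] at h3
    exact h3

end Pool.Agent.H49.FD
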