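import Pool.Agent.H49.FD.Loc

/-!
# The closure of the set of non-free pairs in `ℚ_ℓ × ℚ_ℓ`
-/

set_option autoImplicit false

namespace Pool.Agent.H49.FD

open Finset Pool.Agent.H54.Free

/-- large `p`-adic norms also force freeness -/
lemma always_of_padic_inv {p : ℕ} [Fact p.Prime] {a b : ℚ} (ha0 : a ≠ 0) (hb0 : b ≠ 0)
    (ha : 1 < padicNorm p a) (hb : 1 < padicNorm p b) : AlwaysFree a b := by
  intro x₁ y₁ z₁ x₂ y₂ z₂ hx₁ hz₁ hx₂ hz₂ e₁ e₂ hnc w w' _ _ hw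
  have hz1 : (z₁ : ℚ) ≠ 0 := by exact_mod_cast hz₁.ne'
  have hz2 : (z₂ : ℚ) ≠ 0 := by exact_mod_cast hz₂.ne'
  have hnc' : x₁ * y₂ + y₁ * z₂ ≠ x₂ * y₁ + y₂ * z₁ := by
    intro h0
    apply hnc
    rw [Matrix.mul_fin_two, Matrix.mul_fin_two]
    simp only [mul_zero, zero_mul, add_zero, zero_add]
    rw [h0, mul_comm x₁ x₂, mul_comm z₁ z₂]
  have n1 : x₁ ≠ z₁ := by
    rintro rfl
    rw [div_self hz1] at e₁
    rw [← e₁, padicNorm.one] at ha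
    exact lt_irrefl _ ha
  have n2 : x₂ ≠ z₂ := by
    rintro rfl
    rw [div_self hz2] at e₂
    rw [← e₂, padicNorm.one] at hb
    exact lt_irrefl _ hb
  have h1 := act_normal hz₁ hz₂ n1 n2 hnc' (act_eq_of_prod_eq hz₁ hz₂ hw)
  rw [e₁, e₂] at h1
  have h2 := act_reverse ha0 hb0 h1
  have key : ∀ t : ℚ, t ≠ 0 → 1 < padicNorm p t → padicNorm p t⁻¹ < 1 := by
    intro t ht h
    have h3 : padicNorm p t⁻¹ * padicNorm p t = 1 := by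
      rw [← padicNorm.mul, inv_mul_cancel₀ ht, padicNorm.one]
    by_contra h4
    push Not at h4
    nlinarith
  have h3 := padic_free (inv_ne_zero ha0) (inv_ne_zero hb0) (key a ha0 ha) (key b hb0 hb) h2
  exact List.reverse_injective h3

lemma padicNorm_eq_one_of_den {ℓ : ℕ} [hℓ : Fact ℓ.Prime] {K : ℕ} (hK : 1 ≤ K) {d : ℕ}
    (h : IsUnit (d : ZMod (ℓ ^ K))) : padicNorm ℓ (d : ℚ) = 1 := by
  refine padicNorm_nat_eq_one fun hd => ?_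
  rw [ZMod.isUnit_iff_coprime] at h
  have h1 := Nat.dvd_gcd hd (dvd_pow_self ℓ (by omega : K ≠ 0))
  rw [h.gcd_eq_one] at h1
  exact hℓ.out.one_lt.ne' (Nat.dvd_one.1 h1)

lemma res_close {ℓ : ℕ} [hℓ : Fact ℓ.Prime] {K : ℕ} (hK : 1 ≤ K) {s t : ℚ} {U : (ZMod (ℓ ^ K))ˣ}
    (hs : Res (ℓ ^ K) s U) (ht : Res (ℓ ^ K) t U) :
    padicNorm ℓ (s - t) ≤ (ℓ : ℚ) ^ (-K : ℤ) := by
  have hds : (s.den : ℚ) ≠ 0 := by exact_mod_cast s.den_pos.ne'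
  have hdt : (t.den : ℚ) ≠ 0 := by exact_mod_cast t.den_pos.ne'
  have e : s - t = ((s.num * t.den - t.num * s.den : ℤ) : ℚ) / ((s.den : ℚ) * t.den) := by
    push_cast
    rw [eq_div_iff (mul_ne_zero hds hdt)]
    have e1 : s * s.den = s.num := Rat.mul_den_eq_num s
    have e2 : t * t.den = t.num := Rat.mul_den_eq_num t
    rw [← e1, ← e2]
    ring
  rw [e, padicNorm.div, padicNorm.mul, padicNorm_eq_one_of_den hK hs.den_unit,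
    padicNorm_eq_one_of_den hK ht.den_unit, mul_one, div_one]
  rw [← padicNorm.dvd_iff_norm_le]
  have h1 : (((ℓ ^ K : ℕ) : ℤ)) ∣ s.num * t.den - t.num * s.den := by
    rw [← ZMod.intCast_zmod_eq_zero_iff_dvd]
    push_cast
    unfold Res at hs ht
    rw [hs, ht]
    ring
  exact h1

lemma exists_unit_res {ℓ : ℕ} [hℓ : Fact ℓ.Prime] (K : ℕ) {s : ℚ}
    (hs : padicNorm ℓ s = 1) : ∃ U : (ZMod (ℓ ^ K))ˣ, Res (ℓ ^ K) s U := by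
  have hd : ¬ ℓ ∣ s.den := by
    intro h
    have h1 : padicNorm ℓ (s.den : ℚ) < 1 := (padicNorm.nat_lt_one_iff _).2 h
    have h2 : padicNorm ℓ (s.num : ℚ) = padicNorm ℓ s * padicNorm ℓ (s.den : ℚ) := by
      rw [← padicNorm.mul, Rat.mul_den_eq_num]
    rw [hs, one_mul] at h2
    rw [← h2, padicNorm.int_lt_one_iff] at h1
    have h3 : ℓ ∣ s.num.natAbs := Int.natCast_dvd.1 h1
    have h4 := Nat.dvd_gcd h3 h
    rw [s.reduced.gcd_eq_one] at h4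
    exact hℓ.out.one_lt.ne' (Nat.dvd_one.1 h4)
  have hn : ¬ (ℓ : ℤ) ∣ s.num := by
    intro h
    have h1 : padicNorm ℓ (s.num : ℚ) < 1 := (padicNorm.int_lt_one_iff _).2 h
    have h2 : padicNorm ℓ (s.num : ℚ) = padicNorm ℓ s * padicNorm ℓ (s.den : ℚ) := by
      rw [← padicNorm.mul, Rat.mul_den_eq_num]
    rw [h2, hs, one_mul, padicNorm_nat_eq_one hd] at h1
    exact lt_irrefl _ h1
  have hdu : IsUnit ((s.den : ℕ) : ZMod (ℓ ^ K)) := by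
    rw [ZMod.isUnit_iff_coprime]
    exact (Nat.Coprime.pow_right K ((Nat.Prime.coprime_iff_not_dvd hℓ.out).2 hd).symm)
  have hnu : IsUnit ((s.num : ℤ) : ZMod (ℓ ^ K)) := by
    rw [ZMod.coe_int_isUnit_iff_isCoprime]
    push_cast
    refine IsCoprime.pow_left ?_
    exact (Int.prime_iff_natAbs_prime.2 (by simpa using hℓ.out)).coprime_iff_not_dvd.2 hn
  obtain ⟨u, hu⟩ := hdu
  obtain ⟨v, hv⟩ := hnu
  refine ⟨v * u⁻¹, ?_⟩
  unfold Res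
  rw [← hu, ← hv, Units.val_mul, mul_assoc, Units.inv_mul, mul_one]

/-- approximation of an `ℓ`-adic number -/
lemma approx_p {ℓ : ℕ} [hℓ : Fact ℓ.Prime] {t₁ : ℚ_[ℓ]} (ht₁ : t₁ ≠ 0) {ε : ℝ} (hε : 0 < ε) :
    ∃ (e : ℤ) (K : ℕ) (U : (ZMod (ℓ ^ K))ˣ), 1 ≤ K ∧ ‖t₁‖ = (ℓ : ℝ) ^ (-e) ∧
      ∀ a a' : ℚ, a = (ℓ : ℚ) ^ e * a' → Res (ℓ ^ K) a' U → ‖(a : ℚ_[ℓ]) - t₁‖ < ε := by
  have hp := hℓ.out
  have hℓ1 : (1 : ℝ) < ℓ := by exact_mod_cast hp.one_lt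
  have hℓ0 : (0 : ℝ) < ℓ := by linarith
  have hℓq : (ℓ : ℚ) ≠ 0 := by exact_mod_cast hp.pos.ne'
  have hn : 0 < ‖t₁‖ := norm_pos_iff.2 ht₁
  obtain ⟨α, ht⟩ := Padic.rat_dense ℓ t₁ (lt_min hε hn)
  rw [← norm_neg, neg_sub] at ht
  have h3 : ‖(α : ℚ_[ℓ])‖ = ‖t₁‖ := by
    have h4 : ‖(α : ℚ_[ℓ]) - t₁‖ < ‖t₁‖ := ht.trans_le (min_le_right _ _)
    have h5 : (α : ℚ_[ℓ]) = ((α : ℚ_[ℓ]) - t₁) + t₁ := by ring
    rw [h5, Padic.add_eq_max_of_ne h4.ne, max_eq_right h4.le]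
  have ht0 : α ≠ 0 := by
    rintro rfl
    rw [Rat.cast_zero, norm_zero] at h3
    exact hn.ne h3
  set e : ℤ := padicValRat ℓ α with he
  set s : ℚ := (ℓ : ℚ) ^ (-e) * α with hs
  have a2 : ‖t₁‖ = (ℓ : ℝ) ^ (-e) := by
    rw [← h3, Padic.eq_padicNorm, padicNorm.eq_zpow_of_nonzero ht0]
    push_cast
    rfl
  have a4 : padicNorm ℓ s = 1 := by
    rw [hs, padicNorm.mul, padicNorm.eq_zpow_of_nonzero ht0,
      padicNorm.eq_zpow_of_nonzero (zpow_ne_zero _ hℓq), padicValRat.zpow,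
      padicValRat.self hp.one_lt, ← zpow_add₀ hℓq]
    ring_nf
    simp [he]
  have a5 : α = (ℓ : ℚ) ^ e * s := by
    rw [hs, ← mul_assoc, ← zpow_add₀ hℓq, add_neg_cancel, zpow_zero, one_mul]
  obtain ⟨K, hK1, hK2⟩ : ∃ K : ℕ, 1 ≤ K ∧ ‖t₁‖ * (1 / (ℓ : ℝ)) ^ K < ε := by
    have h3 := (tendsto_pow_atTop_nhds_zero_of_lt_one (show (0 : ℝ) ≤ 1 / ℓ by positivity)
      (by rw [div_lt_one hℓ0]; exact hℓ1)).const_mul ‖t₁‖
    rw [mul_zero] at h3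
    obtain ⟨K, k1, k2⟩ := ((h3.eventually (gt_mem_nhds hε)).and
      (Filter.eventually_ge_atTop 1)).exists
    exact ⟨K, k2, k1⟩
  obtain ⟨U, hU⟩ := exists_unit_res K a4
  refine ⟨e, K, U, hK1, a2, ?_⟩
  intro a a' h3 h5
  have k1 : padicNorm ℓ (a - α) ≤ (ℓ : ℚ) ^ (-e) * (ℓ : ℚ) ^ (-K : ℤ) := by
    rw [h3, a5, ← mul_sub, padicNorm.mul, padicNorm.eq_zpow_of_nonzero
      (zpow_ne_zero _ hℓq), padicValRat.zpow, padicValRat.self hp.one_lt, mul_one]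
    exact mul_le_mul_of_nonneg_left (res_close hK1 h5 hU) (zpow_nonneg (Nat.cast_nonneg _) _)
  have k2 : ‖(a : ℚ_[ℓ]) - α‖ < ε := by
    have k3 : ((a : ℚ_[ℓ]) - α) = ((a - α : ℚ) : ℚ_[ℓ]) := by push_cast; rfl
    rw [k3, Padic.eq_padicNorm]
    have k4 : ((padicNorm ℓ (a - α) : ℚ) : ℝ) ≤
        (((ℓ : ℚ) ^ (-e) * (ℓ : ℚ) ^ (-K : ℤ) : ℚ) : ℝ) := by exact_mod_cast k1
    refine k4.trans_lt ?_
    push_cast
    rw [← a2, zpow_neg, zpow_natCast, ← inv_pow, ← one_div]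
    exact hK2
  have k5 : (a : ℚ_[ℓ]) - t₁ = ((a : ℚ_[ℓ]) - α) + ((α : ℚ_[ℓ]) - t₁) := by ring
  rw [k5]
  exact (Padic.nonarchimedean _ _).trans_lt (max_lt k2 (ht.trans_le (min_le_left _ _)))

/-- a residue modulo `ℓ ^ K` from a residue modulo a higher power -/
lemma Res.mono {ℓ : ℕ} {K L : ℕ} (hKL : K ≤ L) {t : ℚ} {U : (ZMod (ℓ ^ L))ˣ}
    (h : Res (ℓ ^ L) t U) :
    Res (ℓ ^ K) t (Units.map (ZMod.castHom (pow_dvd_pow ℓ hKL) (ZMod (ℓ ^ K))).toMonoidHom U) := by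
  unfold Res at h ⊢
  have h1 := congrArg (ZMod.castHom (pow_dvd_pow ℓ hKL) (ZMod (ℓ ^ K))) h
  rw [map_intCast, map_mul, map_natCast] at h1
  exact h1

/-- lifting of a residue -/
lemma exists_lift {ℓ : ℕ} [hℓ : Fact ℓ.Prime] {K L : ℕ} (hK : 1 ≤ K) (hKL : K ≤ L)
    (U : (ZMod (ℓ ^ K))ˣ) : ∃ W : (ZMod (ℓ ^ L))ˣ,
      Units.map (ZMod.castHom (pow_dvd_pow ℓ hKL) (ZMod (ℓ ^ K))).toMonoidHom W = U := by
  have hp := hℓ.out
  have : NeZero (ℓ ^ K) := ⟨pow_ne_zero _ hp.pos.ne'⟩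
  have h1 : ((U : ZMod (ℓ ^ K)).val : ZMod (ℓ ^ K)) = U := ZMod.natCast_zmod_val _
  have h2 : Nat.Coprime (U : ZMod (ℓ ^ K)).val (ℓ ^ K) := by
    rw [← ZMod.isUnit_iff_coprime, h1]
    exact Units.isUnit _
  have h3 : Nat.Coprime (U : ZMod (ℓ ^ K)).val (ℓ ^ L) :=
    Nat.Coprime.pow_right L ((Nat.coprime_pow_right_iff (by omega) _ _).1 h2)
  refine ⟨ZMod.unitOfCoprime _ h3, ?_⟩
  ext
  simp only [Units.coe_map, ZMod.coe_unitOfCoprime]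
  rw [← h1]
  simp

/-- **The closure at the prime `ℓ`.** -/
theorem closure_p_iff {ℓ : ℕ} [hℓ : Fact ℓ.Prime] {a₁ b₁ : ℚ_[ℓ]} (ha : a₁ ≠ 0) (hb : b₁ ≠ 0) :
    (∀ ε : ℝ, 0 < ε → ∃ a b : ℚ, 0 < a ∧ 0 < b ∧ ‖(a : ℚ_[ℓ]) - a₁‖ < ε ∧
      ‖(b : ℚ_[ℓ]) - b₁‖ < ε ∧ MulIndep a b ∧ NeverFree a b) ↔
      ¬ (‖a₁‖ < 1 ∧ ‖b₁‖ < 1) ∧ ¬ (1 < ‖a₁‖ ∧ 1 < ‖b₁‖) := by
  have hp := hℓ.out
  constructor
  · intro h
    constructor
    · rintro ⟨h1, h2⟩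
      obtain ⟨a, b, a0, b0, a1, b1, hi, hn⟩ := h 1 one_pos
      have key : ∀ (t : ℚ) (t₁ : ℚ_[ℓ]), ‖(t : ℚ_[ℓ]) - t₁‖ < 1 → ‖t₁‖ < 1 →
          padicNorm ℓ t < 1 := by
        intro t t₁ h3 h4
        have h5 : ‖(t : ℚ_[ℓ])‖ < 1 := by
          have : (t : ℚ_[ℓ]) = ((t : ℚ_[ℓ]) - t₁) + t₁ := by ring
          rw [this]
          exact (Padic.nonarchimedean _ _).trans_lt (max_lt h3 h4)
        rw [Padic.eq_padicNorm] at h5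
        exact_mod_cast h5
      exact not_both a0 b0 (ne_one_of_indep hi)
        (always_of_padic a0.ne' b0.ne' (key a a₁ a1 h1) (key b b₁ b1 h2)) hn
    · rintro ⟨h1, h2⟩
      obtain ⟨a, b, a0, b0, a1, b1, hi, hn⟩ := h 1 one_pos
      have key : ∀ (t : ℚ) (t₁ : ℚ_[ℓ]), ‖(t : ℚ_[ℓ]) - t₁‖ < 1 → 1 < ‖t₁‖ →
          1 < padicNorm ℓ t := by
        intro t t₁ h3 h4
        have h5 : 1 < ‖(t : ℚ_[ℓ])‖ := by
          by_contra h6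
          push Not at h6
          have : t₁ = (t : ℚ_[ℓ]) - ((t : ℚ_[ℓ]) - t₁) := by ring
          rw [this, sub_eq_add_neg] at h4
          have h7 := Padic.nonarchimedean (t : ℚ_[ℓ]) (-((t : ℚ_[ℓ]) - t₁))
          rw [norm_neg] at h7
          have := h7.trans (max_le h6 h3.le)
          linarith
        rw [Padic.eq_padicNorm] at h5
        exact_mod_cast h5
      exact not_both a0 b0 (ne_one_of_indep hi)
        (always_of_padic_inv a0.ne' b0.ne' (key a a₁ a1 h1) (key b b₁ b1 h2)) hn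
  · rintro ⟨h1, h2⟩ ε hε
    obtain ⟨e, K, U, hK, a2, fa⟩ := approx_p ha hε
    obtain ⟨f, L, V, hL, b2, fb⟩ := approx_p hb hε
    have hℓ1 : (1 : ℝ) < ℓ := by exact_mod_cast hp.one_lt
    have hef : e * f ≤ 0 := by
      by_contra h3
      push Not at h3
      rcases lt_trichotomy e 0 with he | he | he
      · have hf : f < 0 := by nlinarith
        refine h2 ⟨?_, ?_⟩
        · rw [a2]; exact one_lt_zpow₀ hℓ1 (by omega)
        · rw [b2]; exact one_lt_zpow₀ hℓ1 (by omega)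
      · rw [he] at h3; simp at h3
      · have hf : 0 < f := by nlinarith
        refine h1 ⟨?_, ?_⟩
        · rw [a2]; exact zpow_lt_one_of_neg₀ hℓ1 (by omega)
        · rw [b2]; exact zpow_lt_one_of_neg₀ hℓ1 (by omega)
    obtain ⟨U', hU'⟩ := exists_lift hK (le_max_left K L) U
    obtain ⟨V', hV'⟩ := exists_lift hL (le_max_right K L) V
    have : NeZero (ℓ ^ max K L) := ⟨pow_ne_zero _ hp.pos.ne'⟩
    obtain ⟨a, b, a', b', pa, pb, ea, eb, ra, rb, hi, hn⟩ := dense_never_p (ℓ := ℓ) hef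
      (dvd_pow_self ℓ (by omega : max K L ≠ 0)) U' V'
    refine ⟨a, b, pa, pb, fa a a' ea ?_, fb b b' eb ?_, hi, hn⟩
    · rw [← hU']; exact ra.mono (le_max_left K L)
    · rw [← hV']; exact rb.mono (le_max_right K L)

/-- Free pairs are dense at the prime `ℓ`. -/
theorem dense_always_p {ℓ : ℕ} [hℓ : Fact ℓ.Prime] {a₁ b₁ : ℚ_[ℓ]} (ha : a₁ ≠ 0) (hb : b₁ ≠ 0)
    {ε : ℝ} (hε : 0 < ε) :
    ∃ a b : ℚ, 0 < a ∧ 0 < b ∧ ‖(a : ℚ_[ℓ]) - a₁‖ < ε ∧ ‖(b : ℚ_[ℓ]) - b₁‖ < ε ∧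
      AlwaysFree a b := by
  have hp := hℓ.out
  obtain ⟨q, hq, hqp⟩ := Nat.exists_infinite_primes (ℓ + 1)
  have : Fact q.Prime := ⟨hqp⟩
  have hℓq : (0 : ℚ) < ℓ := by exact_mod_cast hp.pos
  have hcop : Nat.Coprime q ℓ := (Nat.Prime.coprime_iff_not_dvd hqp).2
    fun h => by have := Nat.le_of_dvd hp.pos h; omega
  have key : ∀ t₁ : ℚ_[ℓ], t₁ ≠ 0 → ∃ a : ℚ, 0 < a ∧ ‖(a : ℚ_[ℓ]) - t₁‖ < ε ∧
      padicNorm q a < 1 := by
    intro t₁ ht₁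
    obtain ⟨e, K, U, hK, -, fa⟩ := approx_p ht₁ hε
    have : NeZero (ℓ ^ K) := ⟨pow_ne_zero _ hp.pos.ne'⟩
    have hc2 : Nat.Coprime q (ℓ ^ K) := Nat.Coprime.pow_right K hcop
    obtain ⟨M, q1, q2, q3⟩ := exists_res
      ((U * (ZMod.unitOfCoprime q hc2)⁻¹ : (ZMod (ℓ ^ K))ˣ) : ZMod (ℓ ^ K)) 0 le_rfl
    have hM0 : 0 < M := by exact_mod_cast q1
    refine ⟨(ℓ : ℚ) ^ e * ((q * M : ℕ) : ℚ), ?_, fa _ _ rfl ?_, ?_⟩
    · have : (0 : ℚ) < ((q * M : ℕ) : ℚ) := by exact_mod_cast Nat.mul_pos hqp.pos hM0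
      exact mul_pos (zpow_pos hℓq _) this
    · unfold Res
      simp only [Rat.num_natCast, Rat.den_natCast, Nat.cast_one, mul_one, Int.cast_natCast]
      push_cast
      rw [q3, Units.val_mul]
      have h1 : ((q : ℕ) : ZMod (ℓ ^ K)) *
          (((ZMod.unitOfCoprime q hc2)⁻¹ : (ZMod (ℓ ^ K))ˣ) : ZMod (ℓ ^ K)) = 1 := by
        have h2 := (ZMod.unitOfCoprime q hc2).mul_inv
        rwa [ZMod.coe_unitOfCoprime] at h2
      calc (q : ZMod (ℓ ^ K)) * ((U : ZMod (ℓ ^ K)) *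
            (((ZMod.unitOfCoprime q hc2)⁻¹ : (ZMod (ℓ ^ K))ˣ) : ZMod (ℓ ^ K)))
          = U * (q * (((ZMod.unitOfCoprime q hc2)⁻¹ : (ZMod (ℓ ^ K))ˣ) : ZMod (ℓ ^ K))) := by ring
        _ = U := by rw [h1, mul_one]
    · have hqℓ : ¬ q ∣ ℓ := fun h => by have := Nat.le_of_dvd hp.pos h; omega
      have h1 : padicNorm q ((ℓ : ℚ) ^ e) = 1 := by
        rw [padicNorm.eq_zpow_of_nonzero (zpow_pos hℓq _).ne', padicValRat.zpow,
          padicValRat.of_nat, padicValNat.eq_zero_of_not_dvd hqℓ]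
        simp
      rw [padicNorm.mul, h1, one_mul, padicNorm.nat_lt_one_iff]
      exact dvd_mul_right _ _
  obtain ⟨a, a0, a1, a2⟩ := key a₁ ha
  obtain ⟨b, b0, b1, b2⟩ := key b₁ hb
  exact ⟨a, b, a0, b0, a1, b1, always_of_padic a0.ne' b0.ne' a2 b2⟩

end Pool.Agent.H49.FD
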