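import Pool.Agent.H54.Free.Mat

/-!
# Pigeonhole: pairs with small height of `a^S b^K` are not free
-/

set_option autoImplicit false

namespace Pool.Agent.H49.FD

open Finset Pool.Agent.H54.Free

/-- product of the matrices of a word -/
def PM (x₁ y₁ z₁ x₂ y₂ z₂ : ℕ) (w : List Bool) : Matrix (Fin 2) (Fin 2) ℕ :=
  (w.map (fun b => if b then (!![x₂, y₂; 0, z₂] : Matrix (Fin 2) (Fin 2) ℕ)
    else (!![x₁, y₁; 0, z₁] : Matrix (Fin 2) (Fin 2) ℕ))).prod

section

variable {x₁ y₁ z₁ x₂ y₂ z₂ : ℕ}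

lemma PM_append (u v : List Bool) :
    PM x₁ y₁ z₁ x₂ y₂ z₂ (u ++ v) = PM x₁ y₁ z₁ x₂ y₂ z₂ u * PM x₁ y₁ z₁ x₂ y₂ z₂ v := by
  unfold PM
  rw [List.map_append, List.prod_append]

lemma PM_word (w : List Bool) :
    PM x₁ y₁ z₁ x₂ y₂ z₂ w = !![x₁ ^ w.count false * x₂ ^ w.count true,
      PM x₁ y₁ z₁ x₂ y₂ z₂ w 0 1; 0, z₁ ^ w.count false * z₂ ^ w.count true] := by
  induction w with
  | nil => simp [PM, Matrix.one_fin_two]
  | cons c l ih =>
    have e : PM x₁ y₁ z₁ x₂ y₂ z₂ (c :: l) =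
        (if c then (!![x₂, y₂; 0, z₂] : Matrix (Fin 2) (Fin 2) ℕ) else !![x₁, y₁; 0, z₁]) *
          PM x₁ y₁ z₁ x₂ y₂ z₂ l := by
      unfold PM
      rw [List.map_cons, List.prod_cons]
    rw [e, ih]
    cases c
    · rw [List.count_cons_self, List.count_cons_of_ne (show false ≠ true by decide)]
      simp only [Bool.false_eq_true, if_false, Matrix.mul_fin_two]
      ext i j
      fin_cases i <;> fin_cases j <;> simp [pow_succ] <;> ring
    · rw [List.count_cons_self, List.count_cons_of_ne (show true ≠ false by decide)]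
      simp only [if_true, Matrix.mul_fin_two]
      ext i j
      fin_cases i <;> fin_cases j <;> simp [pow_succ] <;> ring

end

/-- the reduced upper right entry of a product of blocks -/
def nn (X' Z' : ℕ) : List ℕ → ℕ
  | [] => 0
  | τ :: L => X' * nn X' Z' L + τ * Z' ^ L.length

lemma nn_le {X' Z' H T : ℕ} (hX : X' ≤ H) (hZ : Z' ≤ H) (hH : 1 ≤ H) (L : List ℕ)
    (hL : ∀ τ ∈ L, τ ≤ T) : nn X' Z' L ≤ L.length * T * H ^ L.length := by
  induction L with
  | nil => simp [nn]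
  | cons τ L ih =>
    have h1 := ih (fun t ht => hL t (List.mem_cons_of_mem _ ht))
    have h2 := hL τ List.mem_cons_self
    simp only [nn, List.length_cons]
    have h3 : Z' ^ L.length ≤ H ^ L.length := Nat.pow_le_pow_left hZ _
    have h4 : H ^ L.length ≤ H ^ (L.length + 1) := Nat.pow_le_pow_right hH (Nat.le_succ _)
    calc X' * nn X' Z' L + τ * Z' ^ L.length
        ≤ H * (L.length * T * H ^ L.length) + T * H ^ (L.length + 1) :=
          add_le_add (Nat.mul_le_mul hX h1) (Nat.mul_le_mul h2 (h3.trans h4))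
      _ = (L.length + 1) * T * H ^ (L.length + 1) := by rw [pow_succ]; ring

section

variable {x₁ y₁ z₁ x₂ y₂ z₂ : ℕ}

lemma PM_blocks {S K g X' Z' : ℕ} (hX : x₁ ^ S * x₂ ^ K = g * X') (hZ : z₁ ^ S * z₂ ^ K = g * Z')
    (L : List (List Bool)) (hL : ∀ w ∈ L, w.count false = S ∧ w.count true = K) :
    g * PM x₁ y₁ z₁ x₂ y₂ z₂ L.flatten 0 1 =
        g ^ L.length * nn X' Z' (L.map fun w => PM x₁ y₁ z₁ x₂ y₂ z₂ w 0 1) ∧
      PM x₁ y₁ z₁ x₂ y₂ z₂ L.flatten 0 0 = (g * X') ^ L.length ∧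
      PM x₁ y₁ z₁ x₂ y₂ z₂ L.flatten 1 0 = 0 ∧
      PM x₁ y₁ z₁ x₂ y₂ z₂ L.flatten 1 1 = (g * Z') ^ L.length := by
  induction L with
  | nil => simp [PM, nn]
  | cons w L ih =>
    obtain ⟨h1, h2, h3, h4⟩ := ih (fun t ht => hL t (List.mem_cons_of_mem _ ht))
    obtain ⟨c1, c2⟩ := hL w List.mem_cons_self
    have hw := PM_word (x₁ := x₁) (y₁ := y₁) (z₁ := z₁) (x₂ := x₂) (y₂ := y₂) (z₂ := z₂) w
    rw [c1, c2, hX, hZ] at hw
    have e : PM x₁ y₁ z₁ x₂ y₂ z₂ (w :: L).flatten =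
        PM x₁ y₁ z₁ x₂ y₂ z₂ w * PM x₁ y₁ z₁ x₂ y₂ z₂ L.flatten := by
      rw [List.flatten_cons, PM_append]
    have e00 : PM x₁ y₁ z₁ x₂ y₂ z₂ w 0 0 = g * X' := by rw [hw]; rfl
    have e10 : PM x₁ y₁ z₁ x₂ y₂ z₂ w 1 0 = 0 := by rw [hw]; rfl
    have e11 : PM x₁ y₁ z₁ x₂ y₂ z₂ w 1 1 = g * Z' := by rw [hw]; rfl
    rw [e]
    simp only [Matrix.mul_apply, Fin.sum_univ_two, List.map_cons, nn, List.length_cons,
      List.length_map, e00, e10, e11, h2, h3, h4]
    refine ⟨?_, ?_, ?_, ?_⟩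
    · rw [mul_add]
      have : g * (g * X' * PM x₁ y₁ z₁ x₂ y₂ z₂ L.flatten 0 1) =
          g * X' * (g ^ L.length * nn X' Z' (L.map fun w => PM x₁ y₁ z₁ x₂ y₂ z₂ w 0 1)) := by
        rw [← h1]; ring
      rw [this, mul_pow, pow_succ]
      ring
    · rw [pow_succ]; ring
    · ring
    · rw [pow_succ]; ring

end

/-- the word of a set of positions -/
def wd {l : ℕ} (A : Finset (Fin l)) : List Bool := List.ofFn fun i => decide (i ∈ A)

lemma wd_inj {l : ℕ} {A B : Finset (Fin l)} (h : wd A = wd B) : A = B := by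
  have := List.ofFn_injective h
  ext i
  have h1 := congrFun this i
  simpa using h1

lemma length_wd {l : ℕ} (A : Finset (Fin l)) : (wd A).length = l := by simp [wd]

lemma count_wd {l : ℕ} (A : Finset (Fin l)) :
    (wd A).count true = A.card ∧ (wd A).count false = l - A.card := by
  have h1 : (wd A).count true = A.card := by
    unfold wd
    rw [List.ofFn_eq_map, List.count_eq_countP, List.countP_map, List.countP_eq_length_filter]
    have h0 : A.card = (univ.filter fun i => i ∈ A).card := by simp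
    rw [h0, Fin.univ_def]
    simp only [Finset.card_def, Finset.filter, Multiset.filter_coe, Multiset.coe_card]
    congr 2
    funext i
    simp
  have h2 : (wd A).count true + (wd A).count false = (wd A).length :=
    List.count_true_add_count_false _
  rw [length_wd] at h2
  omega

lemma exists_pow_big {C H T : ℕ} (hH : 1 ≤ H) (hC : H < C) :
    ∃ n : ℕ, 1 ≤ n ∧ n * T * H ^ n + 1 < C ^ n := by
  have hH0 : (0 : ℝ) < H := by exact_mod_cast hH
  have hr : (1 : ℝ) < (C : ℝ) / H := by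
    rw [one_lt_div hH0]
    exact_mod_cast hC
  have h1 := tendsto_pow_const_div_const_pow_of_one_lt 1 hr
  have h2 : Filter.Tendsto (fun n : ℕ => (T : ℝ) * ((n : ℝ) ^ 1 / ((C : ℝ) / H) ^ n) +
      1 * (1 / ((C : ℝ) / H)) ^ n) Filter.atTop (nhds ((T : ℝ) * 0 + 1 * 0)) := by
    refine (h1.const_mul _).add (Filter.Tendsto.const_mul _ ?_)
    refine tendsto_pow_atTop_nhds_zero_of_lt_one (by positivity) ?_
    rw [div_lt_one (by linarith)]
    exact hr
  rw [mul_zero, mul_zero, add_zero] at h2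
  have h3 := h2.eventually (gt_mem_nhds (show (0 : ℝ) < 1 by norm_num))
  obtain ⟨n, hn, hn1⟩ := (h3.and (Filter.eventually_ge_atTop 1)).exists
  refine ⟨n, hn1, ?_⟩
  have hHn : (1 : ℝ) ≤ (H : ℝ) ^ n := one_le_pow₀ (by exact_mod_cast hH)
  have hr0 : (0 : ℝ) < ((C : ℝ) / H) ^ n := by positivity
  have h4 : (T : ℝ) * n + 1 < ((C : ℝ) / H) ^ n := by
    have e : (T : ℝ) * ((n : ℝ) ^ 1 / ((C : ℝ) / H) ^ n) + 1 * (1 / ((C : ℝ) / H)) ^ n =
        ((T : ℝ) * n + 1) / ((C : ℝ) / H) ^ n := by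
      rw [one_div, inv_pow, pow_one]
      field_simp
    rw [e, div_lt_one hr0] at hn
    exact hn
  have h5 : ((T : ℝ) * n + 1) * (H : ℝ) ^ n < (C : ℝ) ^ n := by
    calc ((T : ℝ) * n + 1) * (H : ℝ) ^ n < ((C : ℝ) / H) ^ n * (H : ℝ) ^ n := by gcongr
      _ = (C : ℝ) ^ n := by rw [← mul_pow, div_mul_cancel₀ _ hH0.ne']
  have h6 : ((n * T * H ^ n + 1 : ℕ) : ℝ) < ((C ^ n : ℕ) : ℝ) := by
    push_cast
    calc (n : ℝ) * T * (H : ℝ) ^ n + 1 ≤ (n : ℝ) * T * (H : ℝ) ^ n + (H : ℝ) ^ n := by linarith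
      _ = ((T : ℝ) * n + 1) * (H : ℝ) ^ n := by ring
      _ < _ := h5
  exact_mod_cast h6

/-- **Pigeonhole criterion.** -/
theorem not_free_of_height {x₁ y₁ z₁ x₂ y₂ z₂ S K : ℕ} (hx₁ : 0 < x₁) (hz₁ : 0 < z₁)
    (hx₂ : 0 < x₂) (hz₂ : 0 < z₂)
    (h : max (x₁ ^ S * x₂ ^ K) (z₁ ^ S * z₂ ^ K) <
      (S + K).choose K * Nat.gcd (x₁ ^ S * x₂ ^ K) (z₁ ^ S * z₂ ^ K)) :
    ¬ FreePair x₁ y₁ z₁ x₂ y₂ z₂ := by
  classical
  intro hfree
  set X := x₁ ^ S * x₂ ^ K with hX
  set Z := z₁ ^ S * z₂ ^ K with hZ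
  have hX0 : 0 < X := Nat.mul_pos (pow_pos hx₁ _) (pow_pos hx₂ _)
  have hZ0 : 0 < Z := Nat.mul_pos (pow_pos hz₁ _) (pow_pos hz₂ _)
  set g := Nat.gcd X Z with hg
  have hg0 : 0 < g := Nat.gcd_pos_of_pos_left _ hX0
  obtain ⟨X', hX'⟩ := Nat.gcd_dvd_left X Z
  obtain ⟨Z', hZ'⟩ := Nat.gcd_dvd_right X Z
  rw [← hg] at hX' hZ'
  set C := (S + K).choose K with hC
  set H := max X' Z' with hH
  have hX1 : 1 ≤ X' := by
    rcases Nat.eq_zero_or_pos X' with h0 | h0
    · rw [h0, mul_zero] at hX'; omega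
    · exact h0
  have hH1 : 1 ≤ H := hX1.trans (le_max_left _ _)
  have hHC : H < C := by
    have h1 : g * X' < g * C := by
      rw [← hX', mul_comm g C]
      exact (le_max_left _ _).trans_lt h
    have h2 : g * Z' < g * C := by
      rw [← hZ', mul_comm g C]
      exact (le_max_right _ _).trans_lt h
    exact max_lt (lt_of_mul_lt_mul_left h1 (Nat.zero_le _))
      (lt_of_mul_lt_mul_left h2 (Nat.zero_le _))
  have hSK : 1 ≤ S + K := by
    by_contra h0
    have h1 : S = 0 := by omega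
    have h2 : K = 0 := by omega
    rw [hC, h1, h2] at hHC
    simp at hHC
    omega
  set U : Finset (Finset (Fin (S + K))) := powersetCard K univ with hU
  set T := U.sup (fun A => PM x₁ y₁ z₁ x₂ y₂ z₂ (wd A) 0 1) with hT
  obtain ⟨n, hn1, hn⟩ := exists_pow_big (T := T) hH1 hHC
  set F : (Fin n → Finset (Fin (S + K))) → ℕ := fun f =>
    nn X' Z' (List.ofFn fun j => PM x₁ y₁ z₁ x₂ y₂ z₂ (wd (f j)) 0 1) with hF
  have hcard : (Finset.range (n * T * H ^ n + 1)).card <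
      (Fintype.piFinset (fun _ : Fin n => U)).card := by
    rw [Finset.card_range, Fintype.card_piFinset]
    simp only [hU, card_powersetCard, card_univ, Fintype.card_fin, prod_const]
    rw [← hC]
    omega
  obtain ⟨f, hf, f', hf', hne, hFF⟩ := Finset.exists_ne_map_eq_of_card_lt_of_maps_to hcard
    (f := F) (by
      intro f hf
      rw [Finset.mem_coe, Fintype.mem_piFinset] at hf
      rw [Finset.mem_coe, Finset.mem_range]
      have h1 := nn_le (X' := X') (Z' := Z') (H := H) (T := T) (le_max_left _ _)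
        (le_max_right _ _) hH1 (List.ofFn fun j => PM x₁ y₁ z₁ x₂ y₂ z₂ (wd (f j)) 0 1) (by
          intro τ hτ
          rw [List.mem_ofFn] at hτ
          obtain ⟨j, rfl⟩ := hτ
          exact Finset.le_sup (f := fun A => PM x₁ y₁ z₁ x₂ y₂ z₂ (wd A) 0 1) (hf j))
      rw [List.length_ofFn] at h1
      simp only [hF]
      omega)
  rw [Fintype.mem_piFinset] at hf hf'
  -- the two words
  have hblocks : ∀ f : Fin n → Finset (Fin (S + K)), (∀ j, f j ∈ U) →
      ∀ w ∈ List.ofFn (fun j => wd (f j)), w.count false = S ∧ w.count true = K := by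
    intro f hf w hw
    rw [List.mem_ofFn] at hw
    obtain ⟨j, rfl⟩ := hw
    have h1 := (mem_powersetCard.1 (hf j)).2
    obtain ⟨h2, h3⟩ := count_wd (f j)
    omega
  have e1 := PM_blocks (x₁ := x₁) (y₁ := y₁) (z₁ := z₁) (x₂ := x₂) (y₂ := y₂) (z₂ := z₂)
    (S := S) (K := K) (g := g) (X' := X') (Z' := Z') (hX.symm.trans hX') (hZ.symm.trans hZ') _
    (hblocks f hf)
  have e2 := PM_blocks (x₁ := x₁) (y₁ := y₁) (z₁ := z₁) (x₂ := x₂) (y₂ := y₂) (z₂ := z₂)
    (S := S) (K := K) (g := g) (X' := X') (Z' := Z') (hX.symm.trans hX') (hZ.symm.trans hZ') _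
    (hblocks f' hf')
  rw [List.length_ofFn, List.map_ofFn] at e1 e2
  have e3 : nn X' Z' (List.ofFn ((fun w => PM x₁ y₁ z₁ x₂ y₂ z₂ w 0 1) ∘ fun j => wd (f j))) =
      nn X' Z' (List.ofFn ((fun w => PM x₁ y₁ z₁ x₂ y₂ z₂ w 0 1) ∘ fun j => wd (f' j))) := hFF
  have hprod : PM x₁ y₁ z₁ x₂ y₂ z₂ (List.ofFn fun j => wd (f j)).flatten =
      PM x₁ y₁ z₁ x₂ y₂ z₂ (List.ofFn fun j => wd (f' j)).flatten := by
    ext i j
    fin_cases i <;> fin_cases j
    · exact e1.2.1.trans e2.2.1.symm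
    · refine Nat.eq_of_mul_eq_mul_left hg0 ?_
      exact (e1.1.trans (by rw [e3])).trans e2.1.symm
    · exact e1.2.2.1.trans e2.2.2.1.symm
    · exact e1.2.2.2.trans e2.2.2.2.symm
  have hlen : ∀ f : Fin n → Finset (Fin (S + K)),
      (List.ofFn fun j => wd (f j)).flatten.length = n * (S + K) := by
    intro f
    rw [List.length_flatten, List.map_ofFn]
    have : (List.length ∘ fun j => wd (f j)) = fun _ : Fin n => S + K := by
      funext j
      simp [length_wd]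
    rw [this]
    simp
  have hpos : 0 < n * (S + K) := Nat.mul_pos hn1 hSK
  have hnil : ∀ f : Fin n → Finset (Fin (S + K)),
      (List.ofFn fun j => wd (f j)).flatten ≠ [] := by
    intro f h0
    have := hlen f
    rw [h0, List.length_nil] at this
    omega
  have h7 := hfree _ _ (hnil f) (hnil f') hprod
  have h8 : (List.ofFn fun j => wd (f j)) = List.ofFn fun j => wd (f' j) := by
    rw [List.eq_iff_flatten_eq]
    refine ⟨h7, ?_⟩
    rw [List.map_ofFn, List.map_ofFn]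
    congr 1
    funext j
    simp [length_wd]
  have h9 := List.ofFn_injective h8
  exact hne (funext fun j => wd_inj (congrFun h9 j))

end Pool.Agent.H49.FD
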